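import Pool.Agent.U661.HS.Final

/-!
# Examples: a fixed complex structure, and Clifford families; fields of curvature tensors
-/

set_option autoImplicit false

namespace Pool.Agent.U661.HS

open Finset Pool.Agent.Y195.HF Pool.Agent.W666.GB Pool.Agent.W669.HD

variable {m : ℕ} {κ : Type} [Fintype κ]

variable {V : Type} [NormedAddCommGroup V] [InnerProductSpace ℝ V]

/-- a fixed complex structure -/
theorem tri_fixed {J : V →ₗ[ℝ] V} (hJ : CStr J) {A : κ → V → V → ℝ} (hA : ∀ a, AntiJ J (A a))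
    {D P : V → V → V → V → ℝ} (hD : JPos J D) (hP : JPos J P) : Tri A D P := fun p q r =>
  ⟨J, hJ, hD, hP, lcf_antiJ hA p, lcf_antiJ hA q, lcf_antiJ hA r⟩

/-- Clifford families: pairwise anticommuting orthogonal complex structures -/
structure Cliff {k : ℕ} (J : Fin k → V →ₗ[ℝ] V) : Prop where
  cs : ∀ i, CStr (J i)
  anti : ∀ i j, i ≠ j → ∀ x, J i (J j x) = - J j (J i x)

/-- combination of the structures -/
def cj' {k : ℕ} (J : Fin k → V →ₗ[ℝ] V) (u : Fin k → ℝ) : V →ₗ[ℝ] V := ∑ i, u i • J i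

theorem cj'_apply {k : ℕ} (J : Fin k → V →ₗ[ℝ] V) (u : Fin k → ℝ) (x : V) :
    cj' J u x = ∑ i, u i • J i x := by
  simp only [cj', LinearMap.sum_apply, LinearMap.smul_apply]

theorem Cliff.pair {k : ℕ} {J : Fin k → V →ₗ[ℝ] V} (hJ : Cliff J) (i j : Fin k) (x : V) :
    J i (J j x) + J j (J i x) = (if i = j then (-2 : ℝ) else 0) • x := by
  by_cases h : i = j
  · subst h
    rw [if_pos rfl, (hJ.cs i).sq]
    module
  · rw [if_neg h, hJ.anti i j h]
    simp

theorem Cliff.comb {k : ℕ} {J : Fin k → V →ₗ[ℝ] V} (hJ : Cliff J) (u v : Fin k → ℝ) (x : V) :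
    cj' J u (cj' J v x) + cj' J v (cj' J u x) = (-2 * ∑ i, u i * v i) • x := by
  have h1 : ∀ (u v : Fin k → ℝ) (x : V), cj' J u (cj' J v x) =
      ∑ i, ∑ j, (u i * v j) • J i (J j x) := by
    intro u v x
    rw [cj'_apply J v, cj'_apply J u]
    refine Finset.sum_congr rfl fun i _ => ?_
    rw [map_sum, Finset.smul_sum]
    refine Finset.sum_congr rfl fun j _ => ?_
    rw [map_smul, smul_smul]
  have h2 : cj' J v (cj' J u x) = ∑ i, ∑ j, (u i * v j) • J j (J i x) := by
    rw [h1, Finset.sum_comm]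
    refine Finset.sum_congr rfl fun i _ => Finset.sum_congr rfl fun j _ => ?_
    rw [mul_comm]
  rw [h1, h2, ← Finset.sum_add_distrib]
  have h3 : ∀ i, (∑ j, (u i * v j) • J i (J j x)) + ∑ j, (u i * v j) • J j (J i x) =
      (-2 * (u i * v i)) • x := by
    intro i
    rw [← Finset.sum_add_distrib, Finset.sum_eq_single i]
    · rw [← smul_add, hJ.pair, if_pos rfl, smul_smul]
      congr 1
      ring
    · intro j _ hj
      rw [← smul_add, hJ.pair, if_neg (Ne.symm hj), zero_smul, smul_zero]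
    · intro h
      exact absurd (Finset.mem_univ i) h
  rw [Finset.sum_congr rfl fun i _ => h3 i, ← Finset.sum_smul, Finset.mul_sum]

theorem Cliff.skew {k : ℕ} {J : Fin k → V →ₗ[ℝ] V} (hJ : Cliff J) (u : Fin k → ℝ) (x y : V) :
    (inner ℝ (cj' J u x) y : ℝ) = - inner ℝ x (cj' J u y) := by
  rw [cj'_apply, cj'_apply, sum_inner, inner_sum, ← Finset.sum_neg_distrib]
  refine Finset.sum_congr rfl fun i _ => ?_
  rw [real_inner_smul_left, real_inner_smul_right, (hJ.cs i).skew]
  ring

theorem Cliff.cstr {k : ℕ} {J : Fin k → V →ₗ[ℝ] V} (hJ : Cliff J) {u : Fin k → ℝ}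
    (hu : ∑ i, u i * u i = 1) : CStr (cj' J u) := by
  have hsq : ∀ x, cj' J u (cj' J u x) = -x := by
    intro x
    have h := hJ.comb u u x
    rw [hu, ← two_smul ℝ (cj' J u (cj' J u x))] at h
    have h2 : (2 : ℝ) • cj' J u (cj' J u x) = (2 : ℝ) • (-x) := by
      rw [h]
      module
    exact smul_right_injective V (two_ne_zero (α := ℝ)) h2
  refine ⟨hsq, fun x y => ?_⟩
  rw [hJ.skew, hsq, inner_neg_right, neg_neg]

theorem exists_perp {k : ℕ} (hk : 4 ≤ k) (P Q R : Fin k → ℝ) : ∃ u : Fin k → ℝ,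
    ∑ i, u i * u i = 1 ∧ ∑ i, P i * u i = 0 ∧ ∑ i, Q i * u i = 0 ∧ ∑ i, R i * u i = 0 := by
  let L : (Fin k → ℝ) →ₗ[ℝ] (Fin 3 → ℝ) :=
    LinearMap.pi ![∑ i, P i • LinearMap.proj i, ∑ i, Q i • LinearMap.proj i,
      ∑ i, R i • LinearMap.proj i]
  have hL : ∃ v : Fin k → ℝ, v ≠ 0 ∧ L v = 0 := by
    by_contra hcon
    push Not at hcon
    have hinj : Function.Injective L := by
      rw [injective_iff_map_eq_zero]
      intro v hv
      by_contra h
      exact hcon v h hv
    have := LinearMap.finrank_le_finrank_of_injective hinj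
    simp only [Module.finrank_fintype_fun_eq_card, Fintype.card_fin] at this
    omega
  obtain ⟨v, hv, hLv⟩ := hL
  have e0 := congrFun hLv 0
  have e1 := congrFun hLv 1
  have e2 := congrFun hLv 2
  simp only [L, LinearMap.pi_apply, Matrix.cons_val_zero, Matrix.cons_val_one,
    LinearMap.sum_apply, LinearMap.smul_apply, LinearMap.proj_apply, smul_eq_mul,
    Pi.zero_apply, Matrix.cons_val] at e0 e1 e2
  have hpos : 0 < ∑ i, v i * v i := by
    have h0 : 0 ≤ ∑ i, v i * v i := Finset.sum_nonneg fun i _ => mul_self_nonneg _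
    rcases h0.lt_or_eq with h | h
    · exact h
    · exfalso
      apply hv
      funext i
      have h1 := (Finset.sum_eq_zero_iff_of_nonneg
        (fun i (_ : i ∈ Finset.univ) => mul_self_nonneg (v i))).mp h.symm i (Finset.mem_univ i)
      exact mul_self_eq_zero.mp h1
  set s := Real.sqrt (∑ i, v i * v i) with hs
  have hs2 : s * s = ∑ i, v i * v i := Real.mul_self_sqrt hpos.le
  have hs0 : 0 < s := Real.sqrt_pos.mpr hpos
  have key : ∀ w : Fin k → ℝ, ∑ i, w i * v i = 0 → ∑ i, w i * (s⁻¹ * v i) = 0 := by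
    intro w hw
    have : ∑ i, w i * (s⁻¹ * v i) = s⁻¹ * ∑ i, w i * v i := by
      rw [Finset.mul_sum]
      exact Finset.sum_congr rfl fun i _ => by ring
    rw [this, hw, mul_zero]
  refine ⟨fun i => s⁻¹ * v i, ?_, key P e0, key Q e1, key R e2⟩
  have : ∑ i, (s⁻¹ * v i) * (s⁻¹ * v i) = s⁻¹ * s⁻¹ * ∑ i, v i * v i := by
    rw [Finset.mul_sum]
    exact Finset.sum_congr rfl fun i _ => by ring
  rw [this, ← hs2]
  field_simp

/-- Any number of skew forms in the span of a Clifford family with at least four members. -/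
theorem tri_cliff {k : ℕ} (hk : 4 ≤ k) {J : Fin k → V →ₗ[ℝ] V} (hJ : Cliff J)
    (c : κ → Fin k → ℝ) {δ : ℝ} (hδ : 0 ≤ δ) :
    Tri (fun a x y => ∑ i, c a i * kf (J i) x y) (fun x y z w : V => δ * unitT x y z w)
      (fun _ _ _ _ => 0) := by
  intro p q r
  set v : (κ → ℝ) → Fin k → ℝ := fun p i => ∑ a, p a * c a i with hv
  obtain ⟨u, hu, hp, hq, hr⟩ := exists_perp hk (v p) (v q) (v r)
  have key : ∀ p : κ → ℝ, ∑ i, v p i * u i = 0 →
      AntiJ (cj' J u) (lcf p fun a x y => ∑ i, c a i * kf (J i) x y) := by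
    intro p hp x y
    have h1 : ∀ x y, lcf p (fun a x y => ∑ i, c a i * kf (J i) x y) x y =
        inner ℝ (cj' J (v p) x) y := by
      intro x y
      rw [cj'_apply, sum_inner]
      simp only [lcf, hv, real_inner_smul_left, Finset.mul_sum, Finset.sum_mul, kf]
      rw [Finset.sum_comm]
      exact Finset.sum_congr rfl fun i _ => Finset.sum_congr rfl fun a _ => by ring
    rw [h1, h1]
    have h2 := hJ.comb (v p) u x
    rw [hp, mul_zero, zero_smul] at h2
    rw [eq_neg_of_add_eq_zero_left h2, inner_neg_left, hJ.skew u, neg_neg]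
  exact ⟨cj' J u, hJ.cstr hu, JPos.unit hδ, JPos.zero _, key p hp, key q hq, key r hr⟩

omit [Fintype κ] in
theorem span_skew {k : ℕ} {J : Fin k → V →ₗ[ℝ] V} (hJ : Cliff J)
    (c : κ → Fin k → ℝ) (a : κ) : SkewForm (fun x y => ∑ i, c a i * kf (J i) x y) :=
  lcf_skew (κ := Fin k) (A := fun i => kf (J i)) (fun i => kf_skew (hJ.cs i)) (c a)

/-- The pointwise hypothesis: `-R = δ unitT + P + ∑ skewCurv (A a)` for finitely many skew forms
`A a` and some `P`, such that any three real combinations of the skew forms anticommute with a common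
orthogonal complex structure for which `P` is positive. -/
def TriSkew (δ : ℝ) (R : V → V → V → V → ℝ) : Prop :=
  ∃ (n : ℕ) (A : Fin n → V → V → ℝ) (P : V → V → V → V → ℝ), (∀ a, SkewForm (A a)) ∧
    Tri A (fun x y z w => δ * unitT x y z w) P ∧
    R = negT (tot A (fun x y z w => δ * unitT x y z w) P)

theorem triSkew_bound (e : OrthonormalBasis (Fin m × Bool) ℝ V) {R : V → V → V → V → ℝ}
    {δ : ℝ} (h : TriSkew δ R) : roundGB m δ ≤ (-1) ^ m * gbc e R := by
  obtain ⟨n, A, P, hA, hT, rfl⟩ := h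
  rw [← gbc_unit e]
  exact tri_main e hA hT

theorem field_tri {M : Type} [MeasurableSpace M] (μ : MeasureTheory.Measure M)
    (K : CurvField m M) (h : ∀ p, TriSkew 0 (K.R p)) :
    0 ≤ (-1) ^ m * ∫ p, K.gb p ∂μ := by
  rw [← MeasureTheory.integral_const_mul]
  refine MeasureTheory.integral_nonneg fun p => ?_
  exact (roundGB_nonneg le_rfl).trans (triSkew_bound (K.e p) (h p))

theorem field_tri' {M : Type} [MeasurableSpace M] (μ : MeasureTheory.Measure M)
    [MeasureTheory.IsFiniteMeasure μ] (K : CurvField m M) (hi : MeasureTheory.Integrable K.gb μ)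
    {δ : ℝ} (h : ∀ p, TriSkew δ (K.R p)) :
    roundGB m δ * μ.real Set.univ ≤ (-1) ^ m * ∫ p, K.gb p ∂μ := by
  rw [← MeasureTheory.integral_const_mul]
  have h1 : roundGB m δ * μ.real Set.univ = ∫ _, roundGB m δ ∂μ := by
    rw [MeasureTheory.integral_const, smul_eq_mul, mul_comm]
  rw [h1]
  refine MeasureTheory.integral_mono (MeasureTheory.integrable_const _) (hi.const_mul _) fun p => ?_
  exact triSkew_bound (K.e p) (h p)

end Pool.Agent.U661.HS
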