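import Pool.Agent.U661.HS.Fam

/-!
# Orthogonal complex structures
-/

set_option autoImplicit false

namespace Pool.Agent.U661.HS

open Finset Pool.Agent.Y195.HF Pool.Agent.W666.GB Pool.Agent.W669.HD

section defs

variable {V : Type} [NormedAddCommGroup V] [InnerProductSpace ℝ V]

/-- `J` is an orthogonal complex structure. -/
structure CStr (J : V →ₗ[ℝ] V) : Prop where
  sq : ∀ x, J (J x) = -x
  isom : ∀ x y, (inner ℝ (J x) (J y) : ℝ) = inner ℝ x y

/-- The bilinear form `A` is complex bilinear up to conjugation, `A(Jx, y) = A(x, Jy)`; for a skew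
form this says that it is of type `(2,0) + (0,2)` with respect to `J`, or that the skew endomorphism
of `A` anticommutes with `J`. -/
def AntiJ (J : V →ₗ[ℝ] V) (A : V → V → ℝ) : Prop := ∀ x y, A (J x) y = A x (J y)

/-- the Kähler form of `J` -/
noncomputable def kf (J : V →ₗ[ℝ] V) (x y : V) : ℝ := inner ℝ (J x) y

/-- real linear combination of forms -/
def lcf {κ : Type} [Fintype κ] (p : κ → ℝ) (A : κ → V → V → ℝ) (x y : V) : ℝ :=
  ∑ a, p a * A a x y

theorem CStr.skew {J : V →ₗ[ℝ] V} (h : CStr J) (x y : V) :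
    (inner ℝ (J x) y : ℝ) = - inner ℝ x (J y) := by
  have h1 := h.isom (J x) y
  rw [h.sq, inner_neg_left] at h1
  linarith

theorem CStr.self {J : V →ₗ[ℝ] V} (h : CStr J) (x : V) : (inner ℝ x (J x) : ℝ) = 0 := by
  have h1 := h.skew x x
  rw [real_inner_comm] at h1
  linarith

theorem kf_skew {J : V →ₗ[ℝ] V} (h : CStr J) : SkewForm (kf J) where
  add x x' y := by simp only [kf, map_add, inner_add_left]
  smul t x y := by simp only [kf, map_smul, real_inner_smul_left]
  anti x y := by
    simp only [kf]
    rw [h.skew x y, neg_neg, real_inner_comm]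

theorem lcf_skew {κ : Type} [Fintype κ] {A : κ → V → V → ℝ} (hA : ∀ a, SkewForm (A a))
    (p : κ → ℝ) : SkewForm (lcf p A) where
  add x x' y := by
    simp only [lcf, (hA _).add, mul_add, Finset.sum_add_distrib]
  smul t x y := by
    simp only [lcf, (hA _).smul, Finset.mul_sum]
    exact Finset.sum_congr rfl fun a _ => by ring
  anti x y := by
    simp only [lcf]
    rw [← Finset.sum_neg_distrib]
    exact Finset.sum_congr rfl fun a _ => by rw [(hA a).anti x y]; ring

theorem lcf_antiJ {κ : Type} [Fintype κ] {J : V →ₗ[ℝ] V} {A : κ → V → V → ℝ}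
    (hA : ∀ a, AntiJ J (A a)) (p : κ → ℝ) : AntiJ J (lcf p A) := fun x y => by
  simp only [lcf]
  exact Finset.sum_congr rfl fun a _ => by rw [hA a x y]

/-- bilinear forms -/
structure Bl (A : V → V → ℝ) : Prop where
  add : ∀ x x' y, A (x + x') y = A x y + A x' y
  smul : ∀ (t : ℝ) (x y : V), A (t • x) y = t * A x y
  add' : ∀ x y y', A x (y + y') = A x y + A x y'
  smul' : ∀ (t : ℝ) (x y : V), A x (t • y) = t * A x y

/-- Symmetric bilinear forms on `V`. (Linearity in the first argument and the symmetry imply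
linearity in the second one.) -/
structure SymForm (A : V → V → ℝ) : Prop where
  add : ∀ x x' y, A (x + x') y = A x y + A x' y
  smul : ∀ (t : ℝ) (x y : V), A (t • x) y = t * A x y
  symm : ∀ x y, A y x = A x y

theorem SymForm.bl {A : V → V → ℝ} (hA : SymForm A) : Bl A where
  add := hA.add
  smul := hA.smul
  add' x y y' := by rw [hA.symm (y + y') x, hA.add, hA.symm x y, hA.symm x y']
  smul' t x y := by rw [hA.symm (t • y) x, hA.smul, hA.symm x y]

theorem skew_bl {A : V → V → ℝ} (hA : SkewForm A) : Bl A where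
  add := hA.add
  smul := hA.smul
  add' x y y' := by rw [hA.anti (y + y') x, hA.add, hA.anti x y, hA.anti x y']; ring
  smul' t x y := by rw [hA.anti (t • y) x, hA.smul, hA.anti x y]; ring

/-- bilinear map of a form -/
def bil {A : V → V → ℝ} (hA : Bl A) : V →ₗ[ℝ] V →ₗ[ℝ] ℝ :=
  LinearMap.mk₂ ℝ A hA.add hA.smul hA.add' (fun t x y => hA.smul' t x y)

theorem bl_expand {ι : Type} [Fintype ι] {A : V → V → ℝ} (hA : Bl A)
    (f : OrthonormalBasis ι ℝ V) (x y : V) :
    A x y = ∑ i, ∑ j, (inner ℝ (f i) x : ℝ) * inner ℝ (f j) y * A (f i) (f j) := by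
  have h2 : ∀ (a b : ι → ℝ), bil hA (∑ i, a i • f i) (∑ j, b j • f j) =
      ∑ i, ∑ j, a i * b j * A (f i) (f j) := by
    intro a b
    have e1 : bil hA (∑ i, a i • f i) = ∑ i, a i • bil hA (f i) := by
      rw [map_sum]
      simp only [map_smul]
    rw [e1, LinearMap.sum_apply]
    refine Finset.sum_congr rfl fun i _ => ?_
    rw [LinearMap.smul_apply, map_sum, Finset.smul_sum]
    refine Finset.sum_congr rfl fun j _ => ?_
    rw [map_smul, smul_smul, smul_eq_mul]
    rfl
  have h3 := h2 (fun i => inner ℝ (f i) x) (fun j => inner ℝ (f j) y)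
  rw [f.sum_repr' x, f.sum_repr' y] at h3
  exact h3

end defs

theorem exists_unitary (m : ℕ) : ∀ (V : Type) [NormedAddCommGroup V] [InnerProductSpace ℝ V]
    [FiniteDimensional ℝ V] (J : V →ₗ[ℝ] V), CStr J → Module.finrank ℝ V = 2 * m →
    ∃ u : Fin m → V, (∀ b c, (inner ℝ (u b) (u c) : ℝ) = if b = c then 1 else 0) ∧
      ∀ b c, (inner ℝ (u b) (J (u c)) : ℝ) = 0 := by
  induction m with
  | zero =>
    intro V _ _ _ J _ _
    exact ⟨fun b => b.elim0, fun b => b.elim0, fun b => b.elim0⟩
  | succ m ih =>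
    intro V _ _ _ J hJ hd
    have hne : Nontrivial V := Module.nontrivial_of_finrank_pos (R := ℝ) (by omega)
    obtain ⟨x, hx⟩ := exists_norm_eq V (zero_le_one (α := ℝ))
    have hxx : (inner ℝ x x : ℝ) = 1 := by rw [real_inner_self_eq_norm_sq, hx]; norm_num
    have hJJ : (inner ℝ (J x) (J x) : ℝ) = 1 := by rw [hJ.isom, hxx]
    have hxJ : (inner ℝ x (J x) : ℝ) = 0 := hJ.self x
    have hJx : (inner ℝ (J x) x : ℝ) = 0 := by rw [real_inner_comm]; exact hxJ
    have hon : Orthonormal ℝ ![x, J x] := by
      rw [orthonormal_iff_ite]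
      intro i j
      fin_cases i <;> fin_cases j
      · simpa using hxx
      · simpa using hxJ
      · simpa using hJx
      · simpa using hJJ
    set K : Submodule ℝ V := Submodule.span ℝ (Set.range ![x, J x]) with hK
    have hKd : Module.finrank ℝ K = 2 := by
      rw [hK, finrank_span_eq_card hon.linearIndependent]
      simp
    have hWd : Module.finrank ℝ Kᗮ = 2 * m := by
      have h1 := K.finrank_add_finrank_orthogonal
      omega
    have hxK : x ∈ K := Submodule.subset_span ⟨0, rfl⟩
    have hJK : J x ∈ K := Submodule.subset_span ⟨1, rfl⟩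
    have hmem : ∀ w : V, w ∈ Kᗮ ↔ (inner ℝ x w : ℝ) = 0 ∧ (inner ℝ (J x) w : ℝ) = 0 := by
      intro w
      constructor
      · intro hw
        exact ⟨(Submodule.mem_orthogonal K w).mp hw x hxK,
          (Submodule.mem_orthogonal K w).mp hw (J x) hJK⟩
      · rintro ⟨h1, h2⟩
        rw [hK, Submodule.mem_orthogonal]
        intro u hu
        induction hu using Submodule.span_induction with
        | mem u hu =>
          obtain ⟨i, rfl⟩ := hu
          fin_cases i
          · exact h1
          · exact h2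
        | zero => simp
        | add u v _ _ hu hv => rw [inner_add_left, hu, hv, add_zero]
        | smul t u _ hu => rw [real_inner_smul_left, hu, mul_zero]
    have hJW : ∀ w ∈ Kᗮ, J w ∈ Kᗮ := by
      intro w hw
      obtain ⟨h1, h2⟩ := (hmem w).mp hw
      refine (hmem _).mpr ⟨?_, ?_⟩
      · have := hJ.skew x w
        rw [h2] at this
        linarith
      · rw [hJ.isom, h1]
    let J' : Kᗮ →ₗ[ℝ] Kᗮ := J.restrict hJW
    have hJ' : CStr J' := by
      refine ⟨fun w => ?_, fun w w' => ?_⟩
      · apply Subtype.ext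
        exact hJ.sq w
      · exact hJ.isom w w'
    obtain ⟨u, hu1, hu2⟩ := ih Kᗮ J' hJ' hWd
    have hu3 : ∀ c, (inner ℝ x (u c : V) : ℝ) = 0 ∧ (inner ℝ (J x) (u c : V) : ℝ) = 0 :=
      fun c => (hmem _).mp (u c).2
    refine ⟨Fin.cons x (fun c => (u c : V)), ?_, ?_⟩
    · intro b c
      refine Fin.cases ?_ (fun b => ?_) b
      · refine Fin.cases ?_ (fun c => ?_) c
        · simp [hx]
        · rw [Fin.cons_zero, Fin.cons_succ, (hu3 c).1, if_neg (Fin.succ_ne_zero c).symm]
      · refine Fin.cases ?_ (fun c => ?_) c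
        · rw [Fin.cons_zero, Fin.cons_succ, real_inner_comm, (hu3 b).1, if_neg (Fin.succ_ne_zero b)]
        · rw [Fin.cons_succ, Fin.cons_succ]
          have := hu1 b c
          simp only [Fin.succ_inj]
          exact this
    · intro b c
      refine Fin.cases ?_ (fun b => ?_) b
      · refine Fin.cases ?_ (fun c => ?_) c
        · rw [Fin.cons_zero]
          exact hxJ
        · rw [Fin.cons_zero, Fin.cons_succ]
          have := hJ.skew x (u c : V)
          rw [(hu3 c).2] at this
          linarith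
      · refine Fin.cases ?_ (fun c => ?_) c
        · rw [Fin.cons_zero, Fin.cons_succ, real_inner_comm, (hu3 b).2]
        · rw [Fin.cons_succ, Fin.cons_succ]
          exact hu2 b c

end Pool.Agent.U661.HS
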