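import Pool.Agent.U661.HS.Kah

/-!
# The positive parts: constant curvature, complex space forms, complex submanifolds
-/

set_option autoImplicit false

namespace Pool.Agent.U661.HS

open Finset Pool.Agent.Y195.HF Pool.Agent.W666.GB Pool.Agent.W669.HD

variable {m : ℕ}

theorem hh_ff (W : Fin m → Fin m × Bool → ℂ) : Good W 1 (- HH false true W ^ 2) := by
  have h : - HH false true W ^ 2 = ∑ b, ∑ c, SS false false W (sg b c) *
      SS true true (fun b => cjv (W b)) (cja (sg b c)) := by
    unfold HH
    rw [sq, Finset.sum_mul, ← Finset.sum_neg_distrib]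
    refine Finset.sum_congr rfl fun b _ => ?_
    rw [Finset.mul_sum, ← Finset.sum_neg_distrib]
    refine Finset.sum_congr rfl fun c _ => ?_
    rw [cja_sg, SS_sg, SS_sg, bv_exch, neg_neg]
  rw [h]
  exact Good.sum _ fun b => Good.sum _ fun c => good_ff W _

theorem hh_tt (W : Fin m → Fin m × Bool → ℂ) : Good W 1 (- HH true false W ^ 2) := by
  have h : - HH true false W ^ 2 = ∑ b, ∑ c, SS true true W (sg b c) *
      SS false false (fun b => cjv (W b)) (cja (sg b c)) := by
    unfold HH
    rw [sq, Finset.sum_mul, ← Finset.sum_neg_distrib]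
    refine Finset.sum_congr rfl fun b _ => ?_
    rw [Finset.mul_sum, ← Finset.sum_neg_distrib]
    refine Finset.sum_congr rfl fun c _ => ?_
    rw [cja_sg, SS_sg, SS_sg, bv_exch, neg_neg]
  rw [h]
  exact Good.sum _ fun b => Good.sum _ fun c => good_tt W _

/-- mixed products -/
noncomputable def yb (W : Fin m → Fin m × Bool → ℂ) (b c : Fin m) : Zc (I2 m → ℂ) :=
  bv (cv (W b) false) (cv (W c) true)

/-- conjugates of the mixed products -/
noncomputable def yc (W : Fin m → Fin m × Bool → ℂ) (b c : Fin m) : Zc (I2 m → ℂ) :=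
  - bv (cv (cjv (W b)) true) (cv (cjv (W c)) false)

theorem hh_Y (W : Fin m → Fin m × Bool → ℂ) :
    HH false true W * HH true false W = ∑ b, ∑ c, yb W b c * yc W b c := by
  unfold HH yb yc
  rw [Finset.sum_mul]
  refine Finset.sum_congr rfl fun b _ => ?_
  rw [Finset.mul_sum]
  refine Finset.sum_congr rfl fun c _ => ?_
  rw [bv_exch, mul_neg]

theorem hh_W (W : Fin m → Fin m × Bool → ℂ) :
    - (HH false false W * HH true true W) = ∑ b, ∑ c, yb W b c * yc W c b := by
  unfold HH yb yc
  rw [Finset.sum_mul, ← Finset.sum_neg_distrib]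
  refine Finset.sum_congr rfl fun b _ => ?_
  rw [Finset.mul_sum, ← Finset.sum_neg_distrib]
  refine Finset.sum_congr rfl fun c _ => ?_
  rw [bv_exch, neg_neg, bv_swap (cv (cjv (W b)) false), neg_neg]

theorem yy_good (W : Fin m → Fin m × Bool → ℂ) (b c : Fin m) :
    Good W 1 (yb W b c * yc W b c) := by
  have h := good_mix W (sg b c)
  rw [cja_sg, SS_sg, SS_sg] at h
  exact h

theorem yy_sum (W : Fin m → Fin m × Bool → ℂ) : Good W 1 (∑ b, ∑ c, yb W b c * yc W b c) :=
  Good.sum _ fun b => Good.sum _ fun c => yy_good W b c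

theorem pm_good (W : Fin m → Fin m × Bool → ℂ) (ε : ℝ) (b c : Fin m) :
    Good W 1 ((yb W b c + (ε : ℂ) • yb W c b) * (yc W b c + (ε : ℂ) • yc W c b)) := by
  have h := good_mix W (fun p q => sg b c p q + (ε : ℂ) * sg c b p q)
  have h1 : cja (fun p q => sg b c p q + (ε : ℂ) * sg c b p q) =
      fun p q => sg b c p q + (ε : ℂ) * sg c b p q := by
    funext p q
    have e1 := congrFun (congrFun (cja_sg b c) p) q
    have e2 := congrFun (congrFun (cja_sg c b) p) q
    simp only [cja] at e1 e2 ⊢
    rw [map_add, map_mul, Complex.conj_ofReal, e1, e2]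
  rw [h1, SS_add false true W (sg b c) (fun p q => (ε : ℂ) * sg c b p q), SS_smul,
    SS_add true false _ (sg b c) (fun p q => (ε : ℂ) * sg c b p q), SS_smul, SS_sg, SS_sg, SS_sg,
    SS_sg] at h
  have h2 : yc W b c + (ε : ℂ) • yc W c b =
      -(bv (cv (cjv (W b)) true) (cv (cjv (W c)) false) +
        (ε : ℂ) • bv (cv (cjv (W c)) true) (cv (cjv (W b)) false)) := by
    unfold yc
    module
  rw [h2]
  exact h

theorem pm_sum (W : Fin m → Fin m × Bool → ℂ) {ε : ℝ} (hε : ε ^ 2 = 1) :
    Good W 1 ((2 : ℂ) • ∑ b, ∑ c, yb W b c * yc W b c +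
      (2 * ε : ℂ) • ∑ b, ∑ c, yb W b c * yc W c b) := by
  have h : ((2 : ℂ) • ∑ b, ∑ c, yb W b c * yc W b c +
      (2 * ε : ℂ) • ∑ b, ∑ c, yb W b c * yc W c b) =
      ∑ b, ∑ c, (yb W b c + (ε : ℂ) • yb W c b) * (yc W b c + (ε : ℂ) • yc W c b) := by
    have e1 : ∀ b c, (yb W b c + (ε : ℂ) • yb W c b) * (yc W b c + (ε : ℂ) • yc W c b) =
        yb W b c * yc W b c + (ε : ℂ) • (yb W b c * yc W c b) +
        (ε : ℂ) • (yb W c b * yc W b c) + yb W c b * yc W c b := by
      intro b c
      have h2 : ((ε : ℂ) • yb W c b) * ((ε : ℂ) • yc W c b) = yb W c b * yc W c b := by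
        rw [smul_mul_smul_comm]
        have : (ε : ℂ) * ε = 1 := by
          rw [← Complex.ofReal_mul, ← sq, hε, Complex.ofReal_one]
        rw [this, one_smul]
      rw [add_mul, mul_add, mul_add, h2, mul_smul_comm, smul_mul_assoc]
      abel
    simp only [e1, Finset.sum_add_distrib, ← Finset.smul_sum]
    have s1 : ∑ b, ∑ c, yb W c b * yc W c b = ∑ b, ∑ c, yb W b c * yc W b c :=
      Finset.sum_comm
    have s2 : ∑ b, ∑ c, yb W c b * yc W b c = ∑ b, ∑ c, yb W b c * yc W c b :=
      Finset.sum_comm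
    rw [s1, s2]
    module
  rw [h]
  exact Good.sum _ fun b => Good.sum _ fun c => pm_good W ε b c

/-- the element of a complex space form and its neighbours -/
theorem csf_good (W : Fin m → Fin m × Bool → ℂ) {t : ℝ} (h1 : -(1 / 3) ≤ t) (h2 : t ≤ 1) :
    Good W 1 ((-(2 * (1 - t)) : ℂ) • (HH false true W ^ 2 + HH true false W ^ 2) +
      (4 * (1 + t) : ℂ) • (HH false true W * HH true false W) -
      (8 * t : ℂ) • (HH false false W * HH true true W)) := by
  have e0 := hh_Y W
  have e1 := hh_W W
  rcases le_or_gt 0 t with ht | ht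
  · have g1 := (hh_ff W).smul (r := 2 * (1 - t)) (by linarith)
    have g2 := (hh_tt W).smul (r := 2 * (1 - t)) (by linarith)
    have g3 := (yy_sum W).smul (r := 4 * (1 - t)) (by linarith)
    have g4 := (pm_sum W (ε := 1) (by norm_num)).smul (r := 4 * t) (by linarith)
    have g := ((g1.add g2).add g3).add g4
    rw [← e0, ← e1] at g
    convert g using 1
    push_cast
    module
  · have g1 := (hh_ff W).smul (r := 2 * (1 - t)) (by linarith)
    have g2 := (hh_tt W).smul (r := 2 * (1 - t)) (by linarith)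
    have g3 := (yy_sum W).smul (r := 4 * (1 + 3 * t)) (by linarith)
    have g4 := (pm_sum W (ε := -1) (by norm_num)).smul (r := -(4 * t)) (by linarith)
    have g := ((g1.add g2).add g3).add g4
    rw [← e0, ← e1] at g
    convert g using 1
    push_cast
    module

variable {V : Type} [NormedAddCommGroup V] [InnerProductSpace ℝ V]

/-- `unitT + t · skewCurv (kf J)`: for `t = 1` the curvature of the complex space forms -/
noncomputable def csf (J : V →ₗ[ℝ] V) (t : ℝ) (x y z w : V) : ℝ :=
  unitT x y z w + t * skewCurv (kf J) x y z w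

theorem csf_curv {J : V →ₗ[ℝ] V} (hJ : CStr J) (t : ℝ) : AlgCurv (csf J t) where
  add x x' y z w := by
    have h1 := (unit_curv (V := V) 1).add x x' y z w
    have h2 := (kf_skew hJ).curv.add x x' y z w
    simp only [one_mul] at h1
    simp only [csf, h1, h2]
    ring
  smul s x y z w := by
    have h1 := (unit_curv (V := V) 1).smul s x y z w
    have h2 := (kf_skew hJ).curv.smul s x y z w
    simp only [one_mul] at h1
    simp only [csf, h1, h2]
    ring
  anti x y z w := by
    have h1 := (unit_curv (V := V) 1).anti x y z w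
    have h2 := (kf_skew hJ).curv.anti x y z w
    simp only [one_mul] at h1
    simp only [csf, h1, h2]
    ring
  pair x y z w := by
    have h1 := (unit_curv (V := V) 1).pair x y z w
    have h2 := (kf_skew hJ).curv.pair x y z w
    simp only [one_mul] at h1
    simp only [csf, h1, h2]
  bianchi x y z w := by
    have h1 := (unit_curv (V := V) 1).bianchi x y z w
    have h2 := (kf_skew hJ).curv.bianchi x y z w
    simp only [one_mul] at h1
    simp only [csf]
    linear_combination h1 + t * h2

theorem eL_csf {J : V →ₗ[ℝ] V} (hJ : CStr J) (e : OrthonormalBasis (Fin m × Bool) ℝ V)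
    {f : OrthonormalBasis (Fin m × Bool) ℝ V} (hf : UB J f) (t : ℝ) :
    eL (cx (cp e (csf J t))) =
      ((-(2 * (1 - t)) : ℂ) • (HH false true (pv e f) ^ 2 + HH true false (pv e f) ^ 2) +
      (4 * (1 + t) : ℂ) • (HH false true (pv e f) * HH true false (pv e f)) -
      (8 * t : ℂ) • (HH false false (pv e f) * HH true true (pv e f))) := by
  have h1 : (cx (cp e (csf J t)) : C4 m) = fun i j k l => cx (uT : T4 m) i j k l +
      (t : ℂ) * cx (scR (fun i j => kf J (e i) (e j)) : T4 m) i j k l := by
    funext i j k l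
    simp only [cx, cp, csf, uT, cp_unit, scR, skewCurv]
    push_cast
    ring
  rw [h1, eL_add (cx (uT : T4 m)), eL_smul (t : ℂ), eL_unit, eL_scR, qi,
    ff_id_HH (uni_pv e f), ff_herm (kf_herm hJ e hf), ff_herm (kf_herm hJ e hf),
    ff_herm (kf_herm hJ e hf)]
  generalize HH false true (pv e f) = a
  generalize HH true false (pv e f) = b
  generalize HH false false (pv e f) = c
  generalize HH true true (pv e f) = d
  have hI : algebraMap ℂ (Zc (I2 m → ℂ)) Complex.I * algebraMap ℂ (Zc (I2 m → ℂ)) Complex.I =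
      -1 := by
    rw [← map_mul, Complex.I_mul_I, map_neg, map_one]
  simp only [Algebra.smul_def, map_mul, map_neg, map_add, map_sub, map_one, map_ofNat]
  generalize algebraMap ℂ (Zc (I2 m → ℂ)) Complex.I = i at *
  generalize algebraMap ℂ (Zc (I2 m → ℂ)) (t : ℂ) = s
  linear_combination (8 * s * c * d - 2 * s * (a + b) ^ 2) * hI

theorem csf_dom {J : V →ₗ[ℝ] V} (hJ : CStr J) (e : OrthonormalBasis (Fin m × Bool) ℝ V)
    {f : OrthonormalBasis (Fin m × Bool) ℝ V} (hf : UB J f) {t : ℝ} (h1 : -(1 / 3) ≤ t)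
    (h2 : t ≤ 1) : Good (pv e f) 1 (eL (cx (cp e (csf J t)))) := by
  rw [eL_csf hJ e hf]
  exact csf_good _ h1 h2

/-- The negative of the curvature tensor of a complex hypersurface with second fundamental form
`S` (Gauss equation). -/
def hypCurv (J : V →ₗ[ℝ] V) (S : V → V → ℝ) (x y z w : V) : ℝ :=
  -((S x z * S y w - S x w * S y z) + (S x (J z) * S y (J w) - S x (J w) * S y (J z)))

theorem hyp_curv {J : V →ₗ[ℝ] V} {S : V → V → ℝ} (hS : SymForm S) (hSJ : AntiJ J S) :
    AlgCurv (hypCurv J S) where
  add x x' y z w := by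
    simp only [hypCurv, hS.add]
    ring
  smul t x y z w := by
    simp only [hypCurv, hS.smul]
    ring
  anti x y z w := by
    simp only [hypCurv]
    ring
  pair x y z w := by
    have e1 : ∀ u v, S v (J u) = S u (J v) := fun u v => by rw [hS.symm (J u) v, hSJ]
    simp only [hypCurv]
    rw [hS.symm x z, hS.symm y w, hS.symm y z, hS.symm x w, e1 x z, e1 y w, e1 x w, e1 y z]
    ring
  bianchi x y z w := by
    have e1 : ∀ u v, S v (J u) = S u (J v) := fun u v => by rw [hS.symm (J u) v, hSJ]
    simp only [hypCurv]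
    rw [hS.symm x z, hS.symm y z, hS.symm x y, e1 x z, e1 y z, e1 x y]
    ring

theorem hyp_dom {J : V →ₗ[ℝ] V} (hJ : CStr J) (e : OrthonormalBasis (Fin m × Bool) ℝ V)
    {f : OrthonormalBasis (Fin m × Bool) ℝ V} (hf : UB J f) {S : V → V → ℝ}
    (hS : SymForm S) (hSJ : AntiJ J S) : Good (pv e f) 1 (eL (cx (cp e (hypCurv J S)))) := by
  have b1 : Bl S := hS.bl
  have b2 : Bl (fun x y => S x (J y)) :=
    ⟨fun x x' y => hS.add _ _ _, fun t x y => hS.smul _ _ _,
      fun x y y' => by rw [map_add, b1.add'], fun t x y => by rw [map_smul, b1.smul']⟩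
  have j2 : AntiJ J (fun x y => S x (J y)) := fun x y => hSJ x (J y)
  have r1 := rep_bl hJ e hf b1 hSJ
  have r2 := rep_bl hJ e hf b2 j2
  have h1 : (cx (cp e (hypCurv J S)) : C4 m) = fun i j k l =>
      (((-1 : ℂ) * (cm (fun i j => S (e i) (e j)) i k * cm (fun i j => S (e i) (e j)) j l) +
      cm (fun i j => S (e i) (e j)) i l * cm (fun i j => S (e i) (e j)) j k) +
      (-1 : ℂ) * (cm (fun i j => S (e i) (J (e j))) i k * cm (fun i j => S (e i) (J (e j))) j l)) +
      cm (fun i j => S (e i) (J (e j))) i l * cm (fun i j => S (e i) (J (e j))) j k := by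
    funext i j k l
    simp only [cx, cp, hypCurv, cm]
    push_cast
    ring
  have hα : pα f (fun x y => S x (J y)) = fun b c => (-Complex.I) * pα f S b c := by
    funext b c
    have e1 : S (f (b, false)) (J (f (c, true))) = - S (f (b, false)) (f (c, false)) := by
      rw [hf.tr c, hJ.sq]
      have := b1.smul' (-1) (f (b, false)) (f (c, false))
      rw [neg_one_smul] at this
      rw [this]
      ring
    have e2 : S (f (b, false)) (J (f (c, false))) = S (f (b, false)) (f (c, true)) := by
      rw [hf.tr c]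
    simp only [pα, e1, e2]
    push_cast
    linear_combination ((S (f (b, false)) (f (c, true)) : ℂ)) * Complex.I_sq
  have hcja : cja (fun b c => (-Complex.I) * pα f S b c) =
      fun b c => Complex.I * cja (pα f S) b c := by
    funext b c
    simp only [cja, map_mul, map_neg, Complex.conj_I, neg_neg]
  have hsym : ∀ b c, cja (pα f S) c b = cja (pα f S) b c := by
    intro b c
    have e1 : S (f (c, false)) (f (b, true)) = S (f (b, false)) (f (c, true)) := by
      rw [hf.tr b, hf.tr c, hS.symm (J (f (b, false))), hSJ]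
    simp only [cja, pα]
    rw [hS.symm (f (b, false)) (f (c, false)), e1]
  have hsw : SS true false (fun b => cjv (pv e f b)) (cja (pα f S)) =
      - SS false true (fun b => cjv (pv e f b)) (cja (pα f S)) := by
    unfold SS
    rw [Finset.sum_comm, ← Finset.sum_neg_distrib]
    refine Finset.sum_congr rfl fun b _ => ?_
    rw [← Finset.sum_neg_distrib]
    refine Finset.sum_congr rfl fun c _ => ?_
    rw [bv_swap, hsym b c, smul_neg]
  have hg := (good_mix (pv e f) (pα f S)).smul (r := 8) (by norm_num)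
  rw [hsw, neg_neg] at hg
  convert hg using 1
  rw [h1, eL_add (fun i j k l =>
      (((-1 : ℂ) * (cm (fun i j => S (e i) (e j)) i k * cm (fun i j => S (e i) (e j)) j l) +
      cm (fun i j => S (e i) (e j)) i l * cm (fun i j => S (e i) (e j)) j k) +
      (-1 : ℂ) * (cm (fun i j => S (e i) (J (e j))) i k * cm (fun i j => S (e i) (J (e j))) j l))),
    eL_add (fun i j k l =>
      ((-1 : ℂ) * (cm (fun i j => S (e i) (e j)) i k * cm (fun i j => S (e i) (e j)) j l) +
      cm (fun i j => S (e i) (e j)) i l * cm (fun i j => S (e i) (e j)) j k)),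
    eL_add (fun i j k l =>
      ((-1 : ℂ) * (cm (fun i j => S (e i) (e j)) i k * cm (fun i j => S (e i) (e j)) j l))),
    eL_smul (-1) (fun i j k l =>
      (cm (fun i j => S (e i) (e j)) i k * cm (fun i j => S (e i) (e j)) j l)),
    eL_smul (-1) (fun i j k l =>
      (cm (fun i j => S (e i) (J (e j))) i k * cm (fun i j => S (e i) (J (e j))) j l)),
    eL_cross, eL_cross', eL_cross, eL_cross', ff_rep' r1, ff_rep' r2, hα, hcja, SS_smul, SS_smul]
  generalize SS false true (pv e f) (pα f S) = a
  generalize SS false true (fun b => cjv (pv e f b)) (cja (pα f S)) = b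
  have hI : algebraMap ℂ (Zc (I2 m → ℂ)) Complex.I * algebraMap ℂ (Zc (I2 m → ℂ)) Complex.I =
      -1 := by
    rw [← map_mul, Complex.I_mul_I, map_neg, map_one]
  simp only [Algebra.smul_def, map_neg, map_one, Complex.ofReal_ofNat, map_ofNat]
  generalize algebraMap ℂ (Zc (I2 m → ℂ)) Complex.I = i at *
  linear_combination (2 * (a - b) ^ 2) * hI

end Pool.Agent.U661.HS
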