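import Pool.Agent.U661.HS.Posi

/-!
# Families of skew forms
-/

set_option autoImplicit false

namespace Pool.Agent.U661.HS

open Finset Pool.Agent.Y195.HF Pool.Agent.W666.GB Pool.Agent.W669.HD

variable {m : ℕ} {κ : Type} [Fintype κ]

/-- quadratic elements as a linear map -/
noncomputable def ffL (s t : Bool) : Mt m →ₗ[ℂ] Zc (I2 m → ℂ) where
  toFun A := ff s t A
  map_add' A B := ff_add s t A B
  map_smul' z A := ff_smul s t z A

theorem ff_comb (s t : Bool) (c : κ → ℂ) (A : κ → Mt m) :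
    ff s t (∑ a, c a • A a) = ∑ a, c a • ff s t (A a) := by
  have h : ffL s t (∑ a, c a • A a) = ∑ a, c a • ffL s t (A a) := by
    rw [map_sum]
    simp only [map_smul]
  exact h

/-- real combination of matrices -/
noncomputable def rc (c : κ → ℝ) (A : κ → Mt m) : Mt m := ∑ a, (c a : ℂ) • A a

theorem WW_comb (p q r : κ → ℝ) (A : κ → Mt m) :
    WW (rc p A) (rc q A) (rc r A) = ∑ a, vv (p a) (q a) (r a) (A a) := by
  unfold WW rc
  rw [ff_comb, ff_comb, ff_comb, ff_comb, ff_comb]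
  simp only [Finset.smul_sum]
  rw [← Finset.sum_add_distrib, ← Finset.sum_sub_distrib, ← Finset.sum_add_distrib,
    ← Finset.sum_add_distrib]
  refine Finset.sum_congr rfl fun a _ => ?_
  unfold vv uu
  module

/-- the linear forms -/
noncomputable def xf (A : κ → Mt m) : κ × Fin 3 → Zc (I2 m → ℂ) := fun p =>
  vv (if p.2 = 0 then 1 else 0) (if p.2 = 1 then 1 else 0) (if p.2 = 2 then 1 else 0) (A p.1)

theorem xf_sum (A : κ → Mt m) (ξ : κ × Fin 3 → ℝ) : ∑ i, ξ i • xf A i =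
    WW (rc (fun a => ξ (a, 0)) A) (rc (fun a => ξ (a, 1)) A) (rc (fun a => ξ (a, 2)) A) := by
  rw [WW_comb, Fintype.sum_prod_type]
  refine Finset.sum_congr rfl fun a _ => ?_
  rw [← vv_comb (ξ (a, 0)), Fin.sum_univ_three]
  simp [xf]

theorem xf_sq (A : κ → Mt m) : ∑ i, xf A i ^ 2 = ∑ a, qi (A a) := by
  rw [Fintype.sum_prod_type]
  refine Finset.sum_congr rfl fun a _ => ?_
  rw [← vv_sq (A a), Fin.sum_univ_three]
  simp [xf]

/-- Any three real combinations of the forms can be polarised together with `D`. -/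
def PolFam (A : κ → Mt m) (D : Zc (I2 m → ℂ)) : Prop :=
  ∀ p q r : κ → ℝ, ∃ V : Fin m → Fin m × Bool → ℂ, Uni V ∧ Good V 1 D ∧
    (∃ α, Rep V (rc p A) α) ∧ (∃ β, Rep V (rc q A) β) ∧ (∃ γ, Rep V (rc r A) γ)

theorem fam_pos {A : κ → Mt m} {D : Zc (I2 m → ℂ)} (h : PolFam A D) {N n : ℕ} (hN : N + n = m) :
    0 ≤ LR m ((∑ a, qi (A a)) ^ N * D ^ n) := by
  classical
  rw [← xf_sq]
  refine gauss_pos (xf A) (D ^ n) (LR m) N fun ξ => ?_
  obtain ⟨V, hV, hD, ⟨α, hα⟩, ⟨β, hβ⟩, ⟨γ, hγ⟩⟩ := h (fun a => ξ (a, 0)) (fun a => ξ (a, 1))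
    (fun a => ξ (a, 2))
  rw [xf_sum, LR_apply]
  obtain ⟨r, hr, hr'⟩ := WW_pos hV hα hβ hγ (hD.pow n) hN
  rw [hr', Complex.ofReal_re]
  exact hr

/-- The algebraic main theorem. -/
theorem gm_fam {D : T4 m} {A : κ → Fin m × Bool → Fin m × Bool → ℝ}
    (h : PolFam (fun a => cm (A a)) (eL (cx D))) :
    gm (fun _ : Fin m => D) ≤ gm (fun _ : Fin m =>
      (fun i j k l => D i j k l + ∑ a, scR (A a) i j k l : T4 m)) := by
  have key : ∀ a c : ℕ, a + c = m →
      0 ≤ LR m (eL (cx D) ^ a * ((2 : ℂ) • ∑ a, qi (cm (A a))) ^ c) := by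
    intro a c hac
    have h1 := fam_pos h (N := c) (n := a) (by omega)
    have e1 : eL (cx D) ^ a * ((2 : ℂ) • ∑ a, qi (cm (A a))) ^ c =
        ((2 : ℝ) ^ c) • ((∑ a, qi (cm (A a))) ^ c * eL (cx D) ^ a) := by
      rw [smul_pow, ← Complex.coe_smul]
      push_cast
      simp only [Algebra.smul_def]
      ring
    rw [e1, map_smul, smul_eq_mul]
    positivity
  have hsum : eL (cx (fun i j k l => D i j k l + ∑ a, scR (A a) i j k l : T4 m)) =
      eL (cx D) + (2 : ℂ) • ∑ a, qi (cm (A a)) := by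
    rw [Finset.smul_sum, ← Finset.sum_congr rfl fun a _ => eL_scR (A a), ← eL_sum,
      ← eL_add (cx D)]
    congr 1
    funext i j k l
    simp only [cx]
    push_cast
    rfl
  rw [gm_LR, gm_LR, hsum, add_pow, map_sum, Finset.sum_range_succ]
  have h1 : eL (cx D) ^ m * ((2 : ℂ) • ∑ a, qi (cm (A a))) ^ (m - m) *
      ((m.choose m : ℕ) : Zc (I2 m → ℂ)) = eL (cx D) ^ m := by
    rw [Nat.sub_self, pow_zero, Nat.choose_self, Nat.cast_one, mul_one, mul_one]
  rw [h1]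
  have h2 : 0 ≤ ∑ k ∈ Finset.range m, LR m (eL (cx D) ^ k *
      ((2 : ℂ) • ∑ a, qi (cm (A a))) ^ (m - k) *
        ((m.choose k : ℕ) : Zc (I2 m → ℂ))) := by
    refine Finset.sum_nonneg fun k hk => ?_
    rw [Finset.mem_range] at hk
    have h3 := key k (m - k) (by omega)
    have e2 : eL (cx D) ^ k * ((2 : ℂ) • ∑ a, qi (cm (A a))) ^ (m - k) *
        ((m.choose k : ℕ) : Zc (I2 m → ℂ)) =
        ((m.choose k : ℕ) : ℝ) • (eL (cx D) ^ k * ((2 : ℂ) • ∑ a, qi (cm (A a))) ^ (m - k)) := by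
      simp only [Algebra.smul_def, map_natCast]
      ring
    rw [e2, map_smul, smul_eq_mul]
    positivity
  linarith

end Pool.Agent.U661.HS
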