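import Pool.Agent.U661.HS.Dom

/-!
# The comparison theorem
-/

set_option autoImplicit false

namespace Pool.Agent.U661.HS

open Finset Pool.Agent.Y195.HF Pool.Agent.W666.GB Pool.Agent.W669.HD

variable {m : ℕ} {κ : Type} [Fintype κ]

/-- Any three real combinations of the forms can be polarised together with `D` and `P`. -/
def PolFam2 (A : κ → Mt m) (D P : Zc (I2 m → ℂ)) : Prop :=
  ∀ p q r : κ → ℝ, ∃ V : Fin m → Fin m × Bool → ℂ, Uni V ∧ Good V 1 D ∧ Good V 1 P ∧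
    (∃ α, Rep V (rc p A) α) ∧ (∃ β, Rep V (rc q A) β) ∧ (∃ γ, Rep V (rc r A) γ)

theorem fam_pos2 {A : κ → Mt m} {D P : Zc (I2 m → ℂ)} (h : PolFam2 A D P) {N n k : ℕ}
    (hN : N + (n + k) = m) : 0 ≤ LR m ((∑ a, qi (A a)) ^ N * (D ^ n * P ^ k)) := by
  classical
  rw [← xf_sq]
  refine gauss_pos (xf A) (D ^ n * P ^ k) (LR m) N fun ξ => ?_
  obtain ⟨V, hV, hD, hP, ⟨α, hα⟩, ⟨β, hβ⟩, ⟨γ, hγ⟩⟩ := h (fun a => ξ (a, 0)) (fun a => ξ (a, 1))
    (fun a => ξ (a, 2))
  rw [xf_sum, LR_apply]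
  obtain ⟨r, hr, hr'⟩ := WW_pos hV hα hβ hγ ((hD.pow n).mul (hP.pow k)) hN
  rw [hr', Complex.ofReal_re]
  exact hr

/-- The algebraic comparison theorem. -/
theorem gm_fam2 {D P : T4 m} {A : κ → Fin m × Bool → Fin m × Bool → ℝ}
    (h : PolFam2 (fun a => cm (A a)) (eL (cx D)) (eL (cx P))) :
    gm (fun _ : Fin m => D) ≤ gm (fun _ : Fin m =>
      (fun i j k l => D i j k l + (P i j k l + ∑ a, scR (A a) i j k l) : T4 m)) := by
  set Q : Zc (I2 m → ℂ) := (2 : ℂ) • ∑ a, qi (cm (A a)) with hQ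
  have key : ∀ a b c : ℕ, a + b + c = m →
      0 ≤ LR m (eL (cx D) ^ a * (eL (cx P) ^ b * Q ^ c)) := by
    intro a b c hac
    have h1 := fam_pos2 h (N := c) (n := a) (k := b) (by omega)
    have e1 : eL (cx D) ^ a * (eL (cx P) ^ b * Q ^ c) =
        ((2 : ℝ) ^ c) • ((∑ a, qi (cm (A a))) ^ c * (eL (cx D) ^ a * eL (cx P) ^ b)) := by
      rw [hQ, smul_pow, ← Complex.coe_smul]
      push_cast
      simp only [Algebra.smul_def]
      ring
    rw [e1, map_smul, smul_eq_mul]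
    positivity
  have hsum : eL (cx (fun i j k l => D i j k l + (P i j k l + ∑ a, scR (A a) i j k l) : T4 m)) =
      eL (cx D) + (eL (cx P) + Q) := by
    rw [hQ, Finset.smul_sum, ← Finset.sum_congr rfl fun a _ => eL_scR (A a), ← eL_sum,
      ← eL_add (cx P), ← eL_add (cx D)]
    congr 1
    funext i j k l
    simp only [cx]
    push_cast
    rfl
  rw [gm_LR, gm_LR, hsum, add_pow, map_sum, Finset.sum_range_succ]
  have h1 : eL (cx D) ^ m * (eL (cx P) + Q) ^ (m - m) *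
      ((m.choose m : ℕ) : Zc (I2 m → ℂ)) = eL (cx D) ^ m := by
    rw [Nat.sub_self, pow_zero, Nat.choose_self, Nat.cast_one, mul_one, mul_one]
  rw [h1]
  have h2 : 0 ≤ ∑ k ∈ Finset.range m, LR m (eL (cx D) ^ k *
      (eL (cx P) + Q) ^ (m - k) * ((m.choose k : ℕ) : Zc (I2 m → ℂ))) := by
    refine Finset.sum_nonneg fun k hk => ?_
    rw [Finset.mem_range] at hk
    rw [add_pow, Finset.mul_sum, Finset.sum_mul, map_sum]
    refine Finset.sum_nonneg fun j hj => ?_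
    rw [Finset.mem_range] at hj
    have h3 := key k j (m - k - j) (by omega)
    have e2 : eL (cx D) ^ k * (eL (cx P) ^ j * Q ^ (m - k - j) *
        (((m - k).choose j : ℕ) : Zc (I2 m → ℂ))) * ((m.choose k : ℕ) : Zc (I2 m → ℂ)) =
        (((m - k).choose j * m.choose k : ℕ) : ℝ) • (eL (cx D) ^ k * (eL (cx P) ^ j *
          Q ^ (m - k - j))) := by
      simp only [Algebra.smul_def, map_natCast, Nat.cast_mul, map_mul]
      ring
    rw [e2, map_smul, smul_eq_mul]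
    positivity
  linarith

section geometric

variable {V : Type} [NormedAddCommGroup V] [InnerProductSpace ℝ V]

/-- `D = κ (unitT + t · skewCurv (kf J)) + ∑ hypCurv J (S c)` with `κ ≥ 0`, `-1/3 ≤ t ≤ 1` and
symmetric forms `S c` of type `(2,0) + (0,2)`: a sum of a nonnegative multiple of a tensor between
`unitT - skewCurv (kf J) / 3` and the complex space form `unitT + skewCurv (kf J)` and of the
negative of the curvature tensor of a complex submanifold of `ℂ^N`. -/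
def JPos (J : V →ₗ[ℝ] V) (D : V → V → V → V → ℝ) : Prop :=
  ∃ (κ t : ℝ) (n : ℕ) (S : Fin n → V → V → ℝ), 0 ≤ κ ∧ -(1 / 3) ≤ t ∧ t ≤ 1 ∧
    (∀ c, SymForm (S c)) ∧ (∀ c, AntiJ J (S c)) ∧
    ∀ x y z w, D x y z w = κ * csf J t x y z w + ∑ c, hypCurv J (S c) x y z w

theorem JPos.good {J : V →ₗ[ℝ] V} (hJ : CStr J) (e : OrthonormalBasis (Fin m × Bool) ℝ V)
    {f : OrthonormalBasis (Fin m × Bool) ℝ V} (hf : UB J f) {D : V → V → V → V → ℝ}
    (hD : JPos J D) : Good (pv e f) 1 (eL (cx (cp e D))) := by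
  obtain ⟨κ, t, n, S, hκ, h1, h2, hS, hSJ, hD⟩ := hD
  have e1 : (cx (cp e D) : C4 m) = fun i j k l => (fun i j k l => (κ : ℂ) *
      cx (cp e (csf J t)) i j k l) i j k l +
      (fun i j k l => ∑ c, cx (cp e (hypCurv J (S c))) i j k l) i j k l := by
    funext i j k l
    simp only [cx, cp, hD]
    push_cast
    rfl
  rw [e1, eL_add (fun i j k l => (κ : ℂ) * cx (cp e (csf J t)) i j k l), eL_smul, eL_sum]
  exact ((csf_dom hJ e hf h1 h2).smul hκ).add (Good.sum _ fun c => hyp_dom hJ e hf (hS c) (hSJ c))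

theorem JPos.unit {J : V →ₗ[ℝ] V} {κ : ℝ} (hκ : 0 ≤ κ) :
    JPos J (fun x y z w => κ * unitT x y z w) :=
  ⟨κ, 0, 0, fun c => c.elim0, hκ, by norm_num, by norm_num, fun c => c.elim0, fun c => c.elim0,
    fun x y z w => by simp [csf]⟩

theorem JPos.zero (J : V →ₗ[ℝ] V) : JPos J (fun _ _ _ _ => 0) :=
  ⟨0, 0, 0, fun c => c.elim0, le_rfl, by norm_num, by norm_num, fun c => c.elim0,
    fun c => c.elim0, fun x y z w => by simp⟩

theorem JPos.csf {J : V →ₗ[ℝ] V} {κ t : ℝ} (hκ : 0 ≤ κ) (h1 : -(1 / 3) ≤ t) (h2 : t ≤ 1) :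
    JPos J (fun x y z w => κ * csf J t x y z w) :=
  ⟨κ, t, 0, fun c => c.elim0, hκ, h1, h2, fun c => c.elim0, fun c => c.elim0,
    fun x y z w => by simp⟩

theorem rc_cm (e : OrthonormalBasis (Fin m × Bool) ℝ V) (A : κ → V → V → ℝ) (p : κ → ℝ) :
    rc p (fun a => (cm (fun i j => A a (e i) (e j)) : Mt m)) =
      cm (fun i j => lcf p A (e i) (e j)) := by
  funext i j
  simp only [rc, Finset.sum_apply, Pi.smul_apply, smul_eq_mul, cm, lcf]
  push_cast
  rfl

/-- Any three real combinations of the forms `A a` anticommute with a common orthogonal complex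
structure for which `D` and `P` are positive. -/
def Tri (A : κ → V → V → ℝ) (D P : V → V → V → V → ℝ) : Prop :=
  ∀ p q r : κ → ℝ, ∃ J : V →ₗ[ℝ] V, CStr J ∧ JPos J D ∧ JPos J P ∧
    AntiJ J (lcf p A) ∧ AntiJ J (lcf q A) ∧ AntiJ J (lcf r A)

theorem Tri.polFam (e : OrthonormalBasis (Fin m × Bool) ℝ V) {A : κ → V → V → ℝ}
    (hA : ∀ a, SkewForm (A a)) {D P : V → V → V → V → ℝ} (h : Tri A D P) :
    PolFam2 (fun a => (cm (fun i j => A a (e i) (e j)) : Mt m)) (eL (cx (cp e D)))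
      (eL (cx (cp e P))) := by
  intro p q r
  obtain ⟨J, hJ, hD, hP, h1, h2, h3⟩ := h p q r
  obtain ⟨f, hf⟩ := exists_UB e hJ
  refine ⟨pv e f, uni_pv e f, hD.good hJ e hf, hP.good hJ e hf, ?_, ?_, ?_⟩
  · rw [rc_cm]
    exact ⟨_, rep_pv hJ e hf (lcf_skew hA p) h1⟩
  · rw [rc_cm]
    exact ⟨_, rep_pv hJ e hf (lcf_skew hA q) h2⟩
  · rw [rc_cm]
    exact ⟨_, rep_pv hJ e hf (lcf_skew hA r) h3⟩

/-- The sum of `D`, `P` and the curvature tensors of the skew forms. -/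
def tot (A : κ → V → V → ℝ) (D P : V → V → V → V → ℝ) (x y z w : V) : ℝ :=
  D x y z w + (P x y z w + ∑ a, skewCurv (A a) x y z w)

/-- The comparison theorem. -/
theorem tri_main (e : OrthonormalBasis (Fin m × Bool) ℝ V) {A : κ → V → V → ℝ}
    (hA : ∀ a, SkewForm (A a)) {D P : V → V → V → V → ℝ} (h : Tri A D P) :
    (-1) ^ m * gbc e (negT D) ≤ (-1) ^ m * gbc e (negT (tot A D P)) := by
  rw [gbc_eq, gbc_eq]
  have hπ := Real.pi_pos
  have hc : 0 < 1 / ((8 * Real.pi) ^ m * (m.factorial : ℝ)) := by positivity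
  refine mul_le_mul_of_nonneg_left ?_ hc.le
  have h1 := gm_fam2 (h.polFam e hA)
  have e1 : ∀ K : V → V → V → V → ℝ, cp e (negT (negT K)) = cp e K := by
    intro K
    funext i j k l
    simp only [cp, negT, neg_neg]
  have e2 : (fun i j k l => cp e D i j k l + (cp e P i j k l +
      ∑ a, scR (fun i j => A a (e i) (e j)) i j k l) : T4 m) = cp e (tot A D P) := by
    funext i j k l
    rfl
  rw [e1, e1, ← e2]
  exact h1

theorem gbc_unit (e : OrthonormalBasis (Fin m × Bool) ℝ V) (κ : ℝ) :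
    (-1) ^ m * gbc e (negT (fun x y z w => κ * unitT x y z w)) = roundGB m κ := by
  rw [gbc_eq]
  have e1 : cp e (negT (negT (fun x y z w => κ * unitT x y z w))) =
      (fun i j k l => κ * unitCurv i j k l : T4 m) := by
    funext i j k l
    simp only [cp, negT, neg_neg, cp_unit]
  rw [e1, unit_gm]
  unfold roundGB
  have : (8 * Real.pi) ^ m = 2 ^ m * (4 * Real.pi) ^ m := by
    rw [← mul_pow]; congr 1; ring
  rw [this]
  have hπ := Real.pi_pos
  field_simp

end geometric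

end Pool.Agent.U661.HS
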