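import Pool.Agent.U661.HS.Cx

/-!
# Polarisations of orthogonal complex structures
-/

set_option autoImplicit false

namespace Pool.Agent.U661.HS

open Finset Pool.Agent.Y195.HF Pool.Agent.W666.GB Pool.Agent.W669.HD

variable {m : ℕ} {V : Type} [NormedAddCommGroup V] [InnerProductSpace ℝ V]

/-- a unitary basis of `J` -/
structure UB (J : V →ₗ[ℝ] V) (f : OrthonormalBasis (Fin m × Bool) ℝ V) : Prop where
  tr : ∀ b, f (b, true) = J (f (b, false))

theorem exists_UB (e : OrthonormalBasis (Fin m × Bool) ℝ V) {J : V →ₗ[ℝ] V} (hJ : CStr J) :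
    ∃ f : OrthonormalBasis (Fin m × Bool) ℝ V, UB J f := by
  classical
  have : FiniteDimensional ℝ V := e.toBasis.finiteDimensional_of_finite
  have hd : Module.finrank ℝ V = 2 * m := by
    rw [Module.finrank_eq_card_basis e.toBasis]
    simp [mul_comm]
  obtain ⟨u, hu, hv⟩ := exists_unitary m V J hJ hd
  set w : Fin m × Bool → V := fun p => if p.2 = true then J (u p.1) else u p.1 with hw
  have hon : Orthonormal ℝ w := by
    rw [orthonormal_iff_ite]
    rintro ⟨b, s⟩ ⟨c, t⟩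
    cases s <;> cases t
    · simp only [hw, Bool.false_eq_true, if_false, Prod.mk.injEq, and_true]
      exact hu b c
    · simp only [hw, Bool.false_eq_true, if_false, if_true, Prod.mk.injEq, and_false]
      exact hv b c
    · simp only [hw, Bool.false_eq_true, if_false, if_true, Prod.mk.injEq, and_false,
        reduceCtorEq]
      rw [real_inner_comm]
      exact hv c b
    · simp only [hw, if_true, Prod.mk.injEq, and_true]
      rw [hJ.isom]
      exact hu b c
  have hcard : Fintype.card (Fin m × Bool) = Module.finrank ℝ V := by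
    rw [hd]; simp [mul_comm]
  have hspan : (⊤ : Submodule ℝ V) ≤ Submodule.span ℝ (Set.range w) :=
    (hon.linearIndependent.span_eq_top_of_card_eq_finrank' hcard).ge
  refine ⟨OrthonormalBasis.mk hon hspan, ⟨fun b => ?_⟩⟩
  rw [OrthonormalBasis.coe_mk]
  simp [hw]

/-- the polarising family -/
noncomputable def pv (e f : OrthonormalBasis (Fin m × Bool) ℝ V) (b : Fin m)
    (y : Fin m × Bool) : ℂ :=
  ((Real.sqrt 2)⁻¹ : ℝ) * (((inner ℝ (f (b, false)) (e y) : ℝ) : ℂ) -
    Complex.I * ((inner ℝ (f (b, true)) (e y) : ℝ) : ℂ))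

theorem sq2 : (((Real.sqrt 2)⁻¹ : ℝ) : ℂ) * (((Real.sqrt 2)⁻¹ : ℝ) : ℂ) = 1 / 2 := by
  rw [← Complex.ofReal_mul, ← mul_inv, Real.mul_self_sqrt (by norm_num)]
  push_cast
  norm_num

theorem pv_mul (e f : OrthonormalBasis (Fin m × Bool) ℝ V) (b c : Fin m) (y y' : Fin m × Bool) :
    pv e f b y * pv e f c y' = (1 / 2) *
      ((((inner ℝ (f (b, false)) (e y) : ℝ) * (inner ℝ (f (c, false)) (e y') : ℝ) -
        (inner ℝ (f (b, true)) (e y) : ℝ) * (inner ℝ (f (c, true)) (e y') : ℝ) : ℝ) : ℂ) -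
      Complex.I * (((inner ℝ (f (b, false)) (e y) : ℝ) * (inner ℝ (f (c, true)) (e y') : ℝ) +
        (inner ℝ (f (b, true)) (e y) : ℝ) * (inner ℝ (f (c, false)) (e y') : ℝ) : ℝ) : ℂ)) := by
  rw [← sq2]
  unfold pv
  push_cast
  linear_combination ((((Real.sqrt 2) : ℝ) : ℂ)⁻¹ * (((Real.sqrt 2) : ℝ) : ℂ)⁻¹ *
    ((inner ℝ (f (b, true)) (e y) : ℝ) : ℂ) * ((inner ℝ (f (c, true)) (e y') : ℝ) : ℂ)) *
      Complex.I_sq

theorem cjv_pv (e f : OrthonormalBasis (Fin m × Bool) ℝ V) (b : Fin m) (y : Fin m × Bool) :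
    cjv (pv e f b) y = ((Real.sqrt 2)⁻¹ : ℝ) * (((inner ℝ (f (b, false)) (e y) : ℝ) : ℂ) +
    Complex.I * ((inner ℝ (f (b, true)) (e y) : ℝ) : ℂ)) := by
  simp only [cjv, pv, map_mul, map_sub, Complex.conj_ofReal, Complex.conj_I]
  ring

theorem uni_pv (e f : OrthonormalBasis (Fin m × Bool) ℝ V) : Uni (pv e f) := by
  intro y y'
  have h1 : ∀ b, (pv e f b y * cjv (pv e f b) y' + cjv (pv e f b) y * pv e f b y') =
      (((inner ℝ (e y) (f (b, false)) : ℝ) * (inner ℝ (f (b, false)) (e y') : ℝ) +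
        (inner ℝ (e y) (f (b, true)) : ℝ) * (inner ℝ (f (b, true)) (e y') : ℝ) : ℝ) : ℂ) := by
    intro b
    rw [cjv_pv, cjv_pv]
    unfold pv
    rw [real_inner_comm (f (b, false)) (e y), real_inner_comm (f (b, true)) (e y)]
    have h2 := sq2
    push_cast at h2 ⊢
    linear_combination (2 * (((inner ℝ (f (b, false)) (e y) : ℝ) : ℂ) *
      ((inner ℝ (f (b, false)) (e y') : ℝ) : ℂ) + ((inner ℝ (f (b, true)) (e y) : ℝ) : ℂ) *
      ((inner ℝ (f (b, true)) (e y') : ℝ) : ℂ))) * h2 -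
      (2 * ((((Real.sqrt 2) : ℝ) : ℂ)⁻¹ * (((Real.sqrt 2) : ℝ) : ℂ)⁻¹) *
        ((inner ℝ (f (b, true)) (e y) : ℝ) : ℂ) *
        ((inner ℝ (f (b, true)) (e y') : ℝ) : ℂ)) * Complex.I_sq
  rw [Finset.sum_congr rfl fun b _ => h1 b, ← Complex.ofReal_sum]
  have h3 := f.sum_inner_mul_inner (e y) (e y')
  rw [Fintype.sum_prod_type] at h3
  simp only [Fintype.sum_bool] at h3
  have h4 : ∑ b, ((inner ℝ (e y) (f (b, false)) : ℝ) * (inner ℝ (f (b, false)) (e y') : ℝ) +
        (inner ℝ (e y) (f (b, true)) : ℝ) * (inner ℝ (f (b, true)) (e y') : ℝ)) =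
      inner ℝ (e y) (e y') := by
    rw [← h3]
    exact Finset.sum_congr rfl fun b _ => by ring
  rw [h4, orthonormal_iff_ite.mp e.orthonormal]
  split_ifs <;> simp

/-- the components -/
noncomputable def pα (f : OrthonormalBasis (Fin m × Bool) ℝ V) (A : V → V → ℝ)
    (b c : Fin m) : ℂ := (A (f (b, false)) (f (c, false)) : ℂ) +
      Complex.I * (A (f (b, false)) (f (c, true)) : ℂ)

theorem rep_bl {J : V →ₗ[ℝ] V} (hJ : CStr J) (e : OrthonormalBasis (Fin m × Bool) ℝ V)
    {f : OrthonormalBasis (Fin m × Bool) ℝ V} (hf : UB J f) {A : V → V → ℝ}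
    (hA : Bl A) (hAJ : AntiJ J A) (y y' : Fin m × Bool) :
    cm (fun i j => A (e i) (e j)) y y' = ∑ b, ∑ c, (pα f A b c * (pv e f b y * pv e f c y') +
      (starRingEnd ℂ) (pα f A b c) * (cjv (pv e f b) y * cjv (pv e f c) y')) := by
  have a1 : ∀ b c, A (f (b, true)) (f (c, false)) = A (f (b, false)) (f (c, true)) := by
    intro b c
    rw [hf.tr b, hf.tr c, hAJ]
  have a2 : ∀ b c, A (f (b, true)) (f (c, true)) = - A (f (b, false)) (f (c, false)) := by
    intro b c
    have hn : A (f (b, false)) (-(f (c, false))) = - A (f (b, false)) (f (c, false)) := by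
      have := hA.smul' (-1) (f (b, false)) (f (c, false))
      rw [neg_one_smul] at this
      rw [this]
      ring
    rw [hf.tr b, hf.tr c, hAJ, hJ.sq, hn]
  simp only [cm]
  rw [bl_expand hA f (e y) (e y'), Fintype.sum_prod_type]
  simp only [Fintype.sum_prod_type (α₁ := Fin m), Fintype.sum_bool, a1, a2]
  simp only [← Finset.sum_add_distrib]
  push_cast
  refine Finset.sum_congr rfl fun b _ => Finset.sum_congr rfl fun c _ => ?_
  have h1 : cjv (pv e f b) y * cjv (pv e f c) y' =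
      (starRingEnd ℂ) (pv e f b y * pv e f c y') := by
    simp only [cjv, map_mul]
  rw [h1, pv_mul]
  simp only [pα, map_add, map_mul, map_sub, map_div₀, map_one, Complex.conj_ofReal,
    Complex.conj_I, map_ofNat]
  push_cast
  linear_combination (((inner ℝ (f (b, false)) (e y) : ℝ) : ℂ) *
    ((inner ℝ (f (c, true)) (e y') : ℝ) : ℂ) +
      ((inner ℝ (f (b, true)) (e y) : ℝ) : ℂ) * ((inner ℝ (f (c, false)) (e y') : ℝ) : ℂ)) *
    (A (f (b, false)) (f (c, true)) : ℂ) * Complex.I_sq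

theorem rep_pv {J : V →ₗ[ℝ] V} (hJ : CStr J) (e : OrthonormalBasis (Fin m × Bool) ℝ V)
    {f : OrthonormalBasis (Fin m × Bool) ℝ V} (hf : UB J f) {A : V → V → ℝ}
    (hA : SkewForm A) (hAJ : AntiJ J A) :
    Rep (pv e f) (cm fun i j => A (e i) (e j)) (pα f A) := by
  refine ⟨fun b c => ?_, rep_bl hJ e hf (skew_bl hA) hAJ⟩
  have a1 : A (f (b, true)) (f (c, false)) = A (f (b, false)) (f (c, true)) := by
    rw [hf.tr b, hf.tr c, hAJ]
  simp only [pα]
  rw [hA.anti (f (b, false)) (f (c, false)), hA.anti (f (b, true)) (f (c, false)), a1]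
  push_cast
  ring

/-- the Hermitian sums -/
noncomputable def HH (s t : Bool) (V : Fin m → Fin m × Bool → ℂ) : Zc (I2 m → ℂ) :=
  ∑ b, bv (cv (V b) s) (cv (cjv (V b)) t)

theorem ff_herm {W : Fin m → Fin m × Bool → ℂ} {M : Mt m} {z w : ℂ}
    (h : ∀ y y', M y y' = ∑ b, (z * (W b y * cjv (W b) y') + w * (cjv (W b) y * W b y')))
    (s t : Bool) : ff s t M = z • HH s t W - w • HH t s W := by
  have h0 : HH t s W = - ∑ b, bv (cv (cjv (W b)) s) (cv (W b) t) := by
    unfold HH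
    rw [← Finset.sum_neg_distrib]
    exact Finset.sum_congr rfl fun b _ => bv_swap _ _
  rw [h0, smul_neg, sub_neg_eq_add]
  unfold ff HH
  simp only [bv_cv, Finset.smul_sum, smul_smul]
  rw [← Finset.sum_add_distrib]
  symm
  have h1 : ∀ b, ((∑ y, ∑ y', (z * (W b y * cjv (W b) y')) • bv (th m s y) (th m t y')) +
      ∑ y, ∑ y', (w * (cjv (W b) y * W b y')) • bv (th m s y) (th m t y')) =
      ∑ y, ∑ y', (z * (W b y * cjv (W b) y') + w * (cjv (W b) y * W b y')) •
          bv (th m s y) (th m t y') := by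
    intro b
    rw [← Finset.sum_add_distrib]
    refine Finset.sum_congr rfl fun y _ => ?_
    rw [← Finset.sum_add_distrib]
    exact Finset.sum_congr rfl fun y' _ => (add_smul _ _ _).symm
  refine (Finset.sum_congr rfl fun b _ => h1 b).trans ?_
  rw [Finset.sum_comm]
  refine Finset.sum_congr rfl fun y _ => ?_
  rw [Finset.sum_comm]
  refine Finset.sum_congr rfl fun y' _ => ?_
  rw [← Finset.sum_smul, h]

theorem ff_id_HH {W : Fin m → Fin m × Bool → ℂ} (hW : Uni W) :
    ff false true (idM : Mt m) = HH false true W - HH true false W := by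
  have h := ff_herm (M := (idM : Mt m)) (z := 1) (w := 1) (W := W) (fun y y' => by
    rw [idM, ← hW y y']
    exact Finset.sum_congr rfl fun b _ => by ring) false true
  rw [h, one_smul, one_smul]

theorem kf_herm {J : V →ₗ[ℝ] V} (hJ : CStr J) (e : OrthonormalBasis (Fin m × Bool) ℝ V)
    {f : OrthonormalBasis (Fin m × Bool) ℝ V} (hf : UB J f) (y y' : Fin m × Bool) :
    cm (fun i j => kf J (e i) (e j)) y y' = ∑ b, ((-Complex.I) *
      (pv e f b y * cjv (pv e f b) y') + Complex.I * (cjv (pv e f b) y * pv e f b y')) := by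
  have h1 : ∀ b, ((-Complex.I) *
      (pv e f b y * cjv (pv e f b) y') + Complex.I * (cjv (pv e f b) y * pv e f b y')) =
      (((inner ℝ (f (b, false)) (e y) : ℝ) * (inner ℝ (f (b, true)) (e y') : ℝ) -
        (inner ℝ (f (b, true)) (e y) : ℝ) * (inner ℝ (f (b, false)) (e y') : ℝ) : ℝ) : ℂ) := by
    intro b
    rw [cjv_pv, cjv_pv]
    unfold pv
    have h2 := sq2
    have h3 := Complex.I_sq
    push_cast at h2 ⊢
    linear_combination (2 * (((inner ℝ (f (b, false)) (e y) : ℝ) : ℂ) *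
      ((inner ℝ (f (b, true)) (e y') : ℝ) : ℂ) - ((inner ℝ (f (b, true)) (e y) : ℝ) : ℂ) *
      ((inner ℝ (f (b, false)) (e y') : ℝ) : ℂ))) * h2 -
      (2 * ((((Real.sqrt 2) : ℝ) : ℂ)⁻¹ * (((Real.sqrt 2) : ℝ) : ℂ)⁻¹) *
        (((inner ℝ (f (b, false)) (e y) : ℝ) : ℂ) * ((inner ℝ (f (b, true)) (e y') : ℝ) : ℂ) -
          ((inner ℝ (f (b, true)) (e y) : ℝ) : ℂ) *
            ((inner ℝ (f (b, false)) (e y') : ℝ) : ℂ))) * h3
  rw [Finset.sum_congr rfl fun b _ => h1 b, ← Complex.ofReal_sum]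
  simp only [cm]
  congr 1
  simp only [kf]
  have h3 := f.sum_inner_mul_inner (J (e y)) (e y')
  rw [Fintype.sum_prod_type] at h3
  simp only [Fintype.sum_bool] at h3
  rw [← h3]
  refine Finset.sum_congr rfl fun b _ => ?_
  have h4 : (inner ℝ (J (e y)) (f (b, true)) : ℝ) = inner ℝ (f (b, false)) (e y) := by
    rw [hf.tr b, hJ.isom, real_inner_comm]
  have h5 : (inner ℝ (J (e y)) (f (b, false)) : ℝ) = - inner ℝ (f (b, true)) (e y) := by
    rw [hJ.skew, hf.tr b, real_inner_comm]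
  rw [h4, h5]
  ring

end Pool.Agent.U661.HS
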