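import Pool.Agent.U661.HS.Geo

/-!
# Positive elements for a fixed complex structure
-/

set_option autoImplicit false

namespace Pool.Agent.U661.HS

open Finset Pool.Agent.Y195.HF Pool.Agent.W666.GB Pool.Agent.W669.HD

variable {m : ℕ}

theorem tor_pq (X Y : Mt m) : Tor (ff false false X * ff true true Y) := by
  unfold Tor
  rw [map_mul, map_mul, map_ff, map_ff, ← map_mul, ← map_mul]
  congr 1
  simp only [Bool.false_eq_true, if_false, if_true, mul_zero, zero_mul, zero_smul, add_zero,
    zero_add]
  rw [smul_mul_smul_comm]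
  norm_num

theorem cone_smul {n : ℕ} {x : Zc (I2 m → ℂ)} (hx : x ∈ cone m n) {r : ℝ} (hr : 0 ≤ r) :
    (r : ℂ) • x ∈ cone m n := by
  unfold cone at hx
  induction hx using AddSubmonoid.closure_induction with
  | mem x hx =>
    obtain ⟨s, A, hs, rfl⟩ := hx
    rw [smul_smul, ← Complex.ofReal_mul]
    exact cone_gen (mul_nonneg hr hs) A
  | zero => rw [smul_zero]; exact (cone m n).zero_mem
  | add x z _ _ hx hz => rw [smul_add]; exact (cone m n).add_mem hx hz

theorem Good.smul {V : Fin m → Fin m × Bool → ℂ} {n : ℕ} {S : Zc (I2 m → ℂ)}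
    (hS : Good V n S) {r : ℝ} (hr : 0 ≤ r) : Good V n ((r : ℂ) • S) := by
  obtain ⟨S', h1, h2, h3⟩ := hS
  exact ⟨(r : ℂ) • S', by rw [map_smul, map_smul, h1, map_smul], h2.smul _, cone_smul h3 hr⟩

theorem Good.zero (V : Fin m → Fin m × Bool → ℂ) (n : ℕ) : Good V n 0 :=
  ⟨0, by rw [map_zero, map_zero], by simp only [Tor, map_zero], (cone m n).zero_mem⟩

theorem Good.sum {V : Fin m → Fin m × Bool → ℂ} {n : ℕ} {ι : Type} (s : Finset ι)
    {S : ι → Zc (I2 m → ℂ)} (hS : ∀ i, Good V n (S i)) : Good V n (∑ i ∈ s, S i) := by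
  classical
  induction s using Finset.induction_on with
  | empty => rw [Finset.sum_empty]; exact Good.zero V n
  | insert i s hi ih => rw [Finset.sum_insert hi]; exact (hS i).add ih

theorem cone_one_gen (X : Mt m) : ff false false X * ff true true (cj X) ∈ cone m 1 := by
  have h := cone_gen' (m := m) (n := 1) (fun _ => X)
  rwa [Fin.prod_univ_one] at h

/-- matrix with one block -/
def blk (s t : Bool) (σ : Fin m → Fin m → ℂ) : Mt m := fun i j =>
  if i.2 = s ∧ j.2 = t then σ i.1 j.1 else 0

theorem SS_zero (s t : Bool) (V : Fin m → Fin m × Bool → ℂ) :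
    SS s t V (fun _ _ => 0) = 0 := by
  simp only [SS, zero_smul, Finset.sum_const_zero]

theorem good_mix (V : Fin m → Fin m × Bool → ℂ) (σ : Fin m → Fin m → ℂ) :
    Good V 1 (SS false true V σ * (- SS true false (fun b => cjv (V b)) (cja σ))) := by
  refine ⟨_, ?_, tor_pq _ _, cone_one_gen (blk false true σ)⟩
  rw [map_mul, map_mul, pol_pp, pol_cc, ← map_mul]
  congr 1
  have e1 : (fun b c => blk false true σ (b, false) (c, false)) = fun _ _ => (0 : ℂ) := by
    funext b c; simp [blk]
  have e2 : (fun b c => blk false true σ (b, false) (c, true)) = σ := by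
    funext b c; simp [blk]
  have e3 : (fun b c => blk false true σ (b, true) (c, false)) = fun _ _ => (0 : ℂ) := by
    funext b c; simp [blk]
  have e4 : (fun b c => blk false true σ (b, true) (c, true)) = fun _ _ => (0 : ℂ) := by
    funext b c; simp [blk]
  have d1 : (fun b c => cj (blk false true σ) (b, false) (c, false)) = fun _ _ => (0 : ℂ) := by
    funext b c; simp [blk, cj]
  have d2 : (fun b c => cj (blk false true σ) (b, false) (c, true)) = cja σ := by
    funext b c; simp [blk, cj, cja]
  have d3 : (fun b c => cj (blk false true σ) (b, true) (c, false)) = fun _ _ => (0 : ℂ) := by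
    funext b c; simp [blk, cj]
  have d4 : (fun b c => cj (blk false true σ) (b, true) (c, true)) = fun _ _ => (0 : ℂ) := by
    funext b c; simp [blk, cj]
  rw [e1, e2, e3, e4, d1, d2, d3, d4]
  simp only [SS_zero]
  ring

theorem good_ff (V : Fin m → Fin m × Bool → ℂ) (σ : Fin m → Fin m → ℂ) :
    Good V 1 (SS false false V σ * SS true true (fun b => cjv (V b)) (cja σ)) := by
  refine ⟨_, ?_, tor_pq _ _, cone_one_gen (blk false false σ)⟩
  rw [map_mul, map_mul, pol_pp, pol_cc, ← map_mul]
  congr 1
  have e1 : (fun b c => blk false false σ (b, false) (c, false)) = σ := by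
    funext b c; simp [blk]
  have e2 : (fun b c => blk false false σ (b, false) (c, true)) = fun _ _ => (0 : ℂ) := by
    funext b c; simp [blk]
  have e3 : (fun b c => blk false false σ (b, true) (c, false)) = fun _ _ => (0 : ℂ) := by
    funext b c; simp [blk]
  have e4 : (fun b c => blk false false σ (b, true) (c, true)) = fun _ _ => (0 : ℂ) := by
    funext b c; simp [blk]
  have d1 : (fun b c => cj (blk false false σ) (b, false) (c, false)) = cja σ := by
    funext b c; simp [blk, cj, cja]
  have d2 : (fun b c => cj (blk false false σ) (b, false) (c, true)) = fun _ _ => (0 : ℂ) := by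
    funext b c; simp [blk, cj]
  have d3 : (fun b c => cj (blk false false σ) (b, true) (c, false)) = fun _ _ => (0 : ℂ) := by
    funext b c; simp [blk, cj]
  have d4 : (fun b c => cj (blk false false σ) (b, true) (c, true)) = fun _ _ => (0 : ℂ) := by
    funext b c; simp [blk, cj]
  rw [e1, e2, e3, e4, d1, d2, d3, d4]
  simp only [SS_zero]
  ring

theorem good_tt (V : Fin m → Fin m × Bool → ℂ) (σ : Fin m → Fin m → ℂ) :
    Good V 1 (SS true true V σ * SS false false (fun b => cjv (V b)) (cja σ)) := by
  refine ⟨_, ?_, tor_pq _ _, cone_one_gen (blk true true σ)⟩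
  rw [map_mul, map_mul, pol_pp, pol_cc, ← map_mul]
  congr 1
  have e1 : (fun b c => blk true true σ (b, true) (c, true)) = σ := by
    funext b c; simp [blk]
  have e2 : (fun b c => blk true true σ (b, false) (c, true)) = fun _ _ => (0 : ℂ) := by
    funext b c; simp [blk]
  have e3 : (fun b c => blk true true σ (b, true) (c, false)) = fun _ _ => (0 : ℂ) := by
    funext b c; simp [blk]
  have e4 : (fun b c => blk true true σ (b, false) (c, false)) = fun _ _ => (0 : ℂ) := by
    funext b c; simp [blk]
  have d1 : (fun b c => cj (blk true true σ) (b, true) (c, true)) = cja σ := by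
    funext b c; simp [blk, cj, cja]
  have d2 : (fun b c => cj (blk true true σ) (b, false) (c, true)) = fun _ _ => (0 : ℂ) := by
    funext b c; simp [blk, cj]
  have d3 : (fun b c => cj (blk true true σ) (b, true) (c, false)) = fun _ _ => (0 : ℂ) := by
    funext b c; simp [blk, cj]
  have d4 : (fun b c => cj (blk true true σ) (b, false) (c, false)) = fun _ _ => (0 : ℂ) := by
    funext b c; simp [blk, cj]
  rw [e1, e2, e3, e4, d1, d2, d3, d4]
  simp only [SS_zero]
  ring

/-- elementary coefficients -/
def sg (p q : Fin m) : Fin m → Fin m → ℂ := fun b c => if b = p ∧ c = q then 1 else 0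

theorem cja_sg (p q : Fin m) : cja (sg p q) = sg p q := by
  funext b c
  simp only [cja, sg]
  split_ifs <;> simp

theorem SS_sg (s t : Bool) (V : Fin m → Fin m × Bool → ℂ) (p q : Fin m) :
    SS s t V (sg p q) = bv (cv (V p) s) (cv (V q) t) := by
  unfold SS sg
  rw [Finset.sum_eq_single p]
  · rw [Finset.sum_eq_single q]
    · simp
    · intro c _ hc
      rw [if_neg (fun h => hc h.2), zero_smul]
    · intro h
      exact absurd (Finset.mem_univ q) h
  · intro b _ hb
    refine Finset.sum_eq_zero fun c _ => ?_
    rw [if_neg (fun h => hb h.1), zero_smul]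
  · intro h
    exact absurd (Finset.mem_univ p) h

end Pool.Agent.U661.HS
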