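import Pool.Agent.Y195.HF.Main

/-!
# Polarisation of the exterior algebra by a complex structure

A unitary family `V` spanning the `(1,0)`-vectors of an orthogonal complex structure gives a linear
map `pol V` of determinant one.  It transports sums of a bivector of the first half and of the
conjugate bivector of the second half to the combinations which belong to three skew forms of type
`(2,0) + (0,2)`.
-/

set_option autoImplicit false

namespace Pool.Agent.U661.HS

open Finset Pool.Agent.Y195.HF Pool.Agent.W666.GB Pool.Agent.W669.HD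

variable {m : ℕ}

/-- combination of basis vectors -/
noncomputable def cv (v : Fin m × Bool → ℂ) (s : Bool) : I2 m → ℂ := ∑ y, v y • th m s y

/-- product of two vectors, linear in the first one -/
noncomputable def bvL (v : I2 m → ℂ) : (I2 m → ℂ) →ₗ[ℂ] Zc (I2 m → ℂ) where
  toFun u := bv u v
  map_add' u u' := bv_add_left u u' v
  map_smul' c u := bv_smul_left c u v

/-- product of two vectors, linear in the second one -/
noncomputable def bvR (u : I2 m → ℂ) : (I2 m → ℂ) →ₗ[ℂ] Zc (I2 m → ℂ) where
  toFun v := bv u v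
  map_add' v v' := bv_add_right u v v'
  map_smul' c v := bv_smul_right c u v

theorem bv_neg_right (u v : I2 m → ℂ) : bv u (-v) = - bv u v := (bvR u).map_neg v

theorem bv_neg_left (u v : I2 m → ℂ) : bv (-u) v = - bv u v := (bvL v).map_neg u

theorem bv_cv_left (v : Fin m × Bool → ℂ) (s : Bool) (u : I2 m → ℂ) : bv (cv v s) u =
    ∑ y, v y • bv (th m s y) u := by
  have h1 : bvL u (cv v s) = ∑ y, v y • bvL u (th m s y) := by
    rw [cv, map_sum]
    simp only [map_smul]
  exact h1

theorem bv_cv_right (w : Fin m × Bool → ℂ) (t : Bool) (u : I2 m → ℂ) : bv u (cv w t) =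
    ∑ y, w y • bv u (th m t y) := by
  have h1 : bvR u (cv w t) = ∑ y, w y • bvR u (th m t y) := by
    rw [cv, map_sum]
    simp only [map_smul]
  exact h1

theorem bv_cv (v w : Fin m × Bool → ℂ) (s t : Bool) : bv (cv v s) (cv w t) =
    ∑ y, ∑ y', (v y * w y') • bv (th m s y) (th m t y') := by
  rw [bv_cv_left]
  refine Finset.sum_congr rfl fun y _ => ?_
  rw [bv_cv_right, Finset.smul_sum]
  refine Finset.sum_congr rfl fun y' _ => ?_
  rw [smul_smul]

/-- conjugate vector -/
noncomputable def cjv (v : Fin m × Bool → ℂ) : Fin m × Bool → ℂ := fun y => (starRingEnd ℂ) (v y)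

/-- images of the basis vectors under the polarisation map -/
noncomputable def img (V : Fin m → Fin m × Bool → ℂ) : I2 m → (I2 m → ℂ) := fun p =>
  if p.2 = true then
    (if p.1.2 = true then - cv (cjv (V p.1.1)) false else cv (cjv (V p.1.1)) true)
  else cv (V p.1.1) p.1.2

/-- the polarisation map -/
noncomputable def pol (V : Fin m → Fin m × Bool → ℂ) : (I2 m → ℂ) →ₗ[ℂ] (I2 m → ℂ) :=
  Fintype.linearCombination ℂ (img V)

theorem pol_single (V : Fin m → Fin m × Bool → ℂ) (s : Bool) (x : Fin m × Bool) :
    pol V (th m s x) = img V (x, s) := by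
  rw [pol, th, Fintype.linearCombination_apply_single, one_smul]

theorem pol_e (V : Fin m → Fin m × Bool → ℂ) (b : Fin m) (s : Bool) :
    pol V (th m false (b, s)) = cv (V b) s := by
  rw [pol_single]
  simp [img]

theorem pol_f0 (V : Fin m → Fin m × Bool → ℂ) (b : Fin m) :
    pol V (th m true (b, false)) = cv (cjv (V b)) true := by
  rw [pol_single]
  simp [img]

theorem pol_f1 (V : Fin m → Fin m × Bool → ℂ) (b : Fin m) :
    pol V (th m true (b, true)) = - cv (cjv (V b)) false := by
  rw [pol_single]
  simp [img]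

/-- The family `V` is a unitary basis of a subspace such that the whole space is the orthogonal sum
of this subspace and of the conjugate one. -/
def Uni (V : Fin m → Fin m × Bool → ℂ) : Prop :=
  ∀ y y', ∑ b, (V b y * cjv (V b) y' + cjv (V b) y * V b y') = if y = y' then 1 else 0

/-- the unit matrix -/
def idM : Mt m := fun i j => if i = j then 1 else 0

theorem ff_idM (s t : Bool) : ff s t (idM : Mt m) = ∑ x, bv (th m s x) (th m t x) := by
  unfold ff idM
  refine Finset.sum_congr rfl fun i _ => ?_
  rw [Finset.sum_eq_single i]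
  · simp
  · intro j _ hj
    rw [if_neg (Ne.symm hj), zero_smul]
  · intro h
    exact absurd (Finset.mem_univ i) h

/-- the sums over pairs of members of `V` -/
noncomputable def SS (s t : Bool) (V : Fin m → Fin m × Bool → ℂ) (α : Fin m → Fin m → ℂ) :
    Zc (I2 m → ℂ) := ∑ b, ∑ c, α b c • bv (cv (V b) s) (cv (V c) t)

theorem SS_add (s t : Bool) (V : Fin m → Fin m × Bool → ℂ) (α β : Fin m → Fin m → ℂ) :
    SS s t V (fun b c => α b c + β b c) = SS s t V α + SS s t V β := by
  simp only [SS, add_smul, Finset.sum_add_distrib]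

theorem SS_smul (s t : Bool) (V : Fin m → Fin m × Bool → ℂ) (z : ℂ) (α : Fin m → Fin m → ℂ) :
    SS s t V (fun b c => z * α b c) = z • SS s t V α := by
  simp only [SS, mul_smul, Finset.smul_sum]

theorem SS_swap (V : Fin m → Fin m × Bool → ℂ) {α : Fin m → Fin m → ℂ}
    (hα : ∀ b c, α c b = - α b c) : SS true false V α = SS false true V α := by
  unfold SS
  rw [Finset.sum_comm]
  refine Finset.sum_congr rfl fun b _ => Finset.sum_congr rfl fun c _ => ?_
  rw [bv_swap, hα b c, smul_neg, neg_smul, neg_neg]

/-- `A` is the form with the components `α` of type `(2,0)` and the conjugate components of type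
`(0,2)`. -/
def Rep (V : Fin m → Fin m × Bool → ℂ) (A : Mt m) (α : Fin m → Fin m → ℂ) : Prop :=
  (∀ b c, α c b = - α b c) ∧ ∀ y y', A y y' = ∑ b, ∑ c, (α b c * (V b y * V c y') +
    (starRingEnd ℂ) (α b c) * (cjv (V b) y * cjv (V c) y'))

/-- conjugate coefficients -/
noncomputable def cja (α : Fin m → Fin m → ℂ) : Fin m → Fin m → ℂ :=
  fun b c => (starRingEnd ℂ) (α b c)

theorem ff_rep' {V : Fin m → Fin m × Bool → ℂ} {A : Mt m} {α : Fin m → Fin m → ℂ}
    (h : ∀ y y', A y y' = ∑ b, ∑ c, (α b c * (V b y * V c y') +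
      (starRingEnd ℂ) (α b c) * (cjv (V b) y * cjv (V c) y'))) (s t : Bool) :
    ff s t A = SS s t V α + SS s t (fun b => cjv (V b)) (cja α) := by
  unfold ff SS
  simp only [bv_cv, Finset.smul_sum, smul_smul]
  rw [← Finset.sum_add_distrib]
  have h1 : ∀ b, ((∑ c, ∑ y, ∑ y', (α b c * (V b y * V c y')) • bv (th m s y) (th m t y')) +
      ∑ c, ∑ y, ∑ y', (cja α b c * (cjv (V b) y * cjv (V c) y')) • bv (th m s y) (th m t y')) =
      ∑ y, ∑ y', (∑ c, (α b c * (V b y * V c y') +
        (starRingEnd ℂ) (α b c) * (cjv (V b) y * cjv (V c) y'))) •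
          bv (th m s y) (th m t y') := by
    intro b
    rw [← Finset.sum_add_distrib]
    simp only [← Finset.sum_add_distrib, ← add_smul]
    rw [Finset.sum_comm]
    refine Finset.sum_congr rfl fun y _ => ?_
    rw [Finset.sum_comm]
    refine Finset.sum_congr rfl fun y' _ => ?_
    rw [Finset.sum_smul]
    rfl
  refine Eq.symm ?_
  refine (Finset.sum_congr rfl fun b _ => h1 b).trans ?_
  rw [Finset.sum_comm]
  refine Finset.sum_congr rfl fun y _ => ?_
  rw [Finset.sum_comm]
  refine Finset.sum_congr rfl fun y' _ => ?_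
  rw [← Finset.sum_smul, h]

theorem ff_rep {V : Fin m → Fin m × Bool → ℂ} {A : Mt m} {α : Fin m → Fin m → ℂ}
    (h : Rep V A α) (s t : Bool) :
    ff s t A = SS s t V α + SS s t (fun b => cjv (V b)) (cja α) := ff_rep' h.2 s t

theorem pol_g {V : Fin m → Fin m × Bool → ℂ} (hV : Uni V) :
    ExteriorAlgebra.map (pol V) (zval (ff false true (idM : Mt m))) =
      zval (ff false true (idM : Mt m)) := by
  rw [ff_idM]
  have e0 : ExteriorAlgebra.map (pol V) (zval (∑ x, bv (th m false x) (th m true x))) =
      zval (∑ x, bv (pol V (th m false x)) (pol V (th m true x))) := by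
    simp only [map_sum, map_bv]
  rw [e0]
  congr 1
  rw [Fintype.sum_prod_type]
  simp only [Fintype.sum_bool, pol_e, pol_f0, pol_f1, bv_neg_right]
  have h1 : ∀ b, -bv (cv (V b) true) (cv (cjv (V b)) false) +
      bv (cv (V b) false) (cv (cjv (V b)) true) =
      ∑ y, ∑ y', (V b y * cjv (V b) y' + cjv (V b) y * V b y') •
        bv (th m false y) (th m true y') := by
    intro b
    rw [← bv_swap, bv_cv, bv_cv, ← Finset.sum_add_distrib]
    refine Finset.sum_congr rfl fun y _ => ?_
    rw [← Finset.sum_add_distrib]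
    refine Finset.sum_congr rfl fun y' _ => ?_
    rw [← add_smul]
    congr 1
    ring
  refine (Finset.sum_congr rfl fun b _ => h1 b).trans ?_
  rw [Finset.sum_comm]
  refine Finset.sum_congr rfl fun y _ => ?_
  rw [Finset.sum_comm, Finset.sum_eq_single y]
  · rw [← Finset.sum_smul, hV y y, if_pos rfl, one_smul]
  · intro y' _ hy
    rw [← Finset.sum_smul, hV y y', if_neg (Ne.symm hy), zero_smul]
  · intro h
    exact absurd (Finset.mem_univ y) h

theorem map_ff_gen (f : (I2 m → ℂ) →ₗ[ℂ] (I2 m → ℂ)) (s t : Bool) (A : Mt m) :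
    ExteriorAlgebra.map f (zval (ff s t A)) =
      zval (∑ x, ∑ y, A x y • bv (f (th m s x)) (f (th m t y))) := by
  simp only [ff, map_sum, map_smul, map_bv]

theorem pol_pp (V : Fin m → Fin m × Bool → ℂ) (X : Mt m) :
    ExteriorAlgebra.map (pol V) (zval (ff false false X)) =
      zval (SS false false V (fun b c => X (b, false) (c, false)) +
        SS false true V (fun b c => X (b, false) (c, true)) +
        SS true false V (fun b c => X (b, true) (c, false)) +
        SS true true V (fun b c => X (b, true) (c, true))) := by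
  rw [map_ff_gen]
  congr 1
  simp only [Fintype.sum_prod_type, Fintype.sum_bool, pol_e, SS, Finset.sum_add_distrib]
  abel

theorem pol_cc (V : Fin m → Fin m × Bool → ℂ) (X : Mt m) :
    ExteriorAlgebra.map (pol V) (zval (ff true true X)) =
      zval (SS true true (fun b => cjv (V b)) (fun b c => X (b, false) (c, false)) -
        SS true false (fun b => cjv (V b)) (fun b c => X (b, false) (c, true)) -
        SS false true (fun b => cjv (V b)) (fun b c => X (b, true) (c, false)) +
        SS false false (fun b => cjv (V b)) (fun b c => X (b, true) (c, true))) := by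
  rw [map_ff_gen]
  congr 1
  simp only [Fintype.sum_prod_type, Fintype.sum_bool, pol_f0, pol_f1, SS, Finset.sum_add_distrib,
    bv_neg_left, bv_neg_right, smul_neg, Finset.sum_neg_distrib]
  abel

/-- the matrix of the bivector -/
noncomputable def XM (α β γ : Fin m → Fin m → ℂ) : Mt m := fun x y =>
  if x.2 = y.2 then (1 / 2) * α x.1 y.1 +
    (if x.2 = true then -(Complex.I / 2) else Complex.I / 2) * β x.1 y.1
  else (Complex.I / 2) * γ x.1 y.1

theorem XM_skew {α β γ : Fin m → Fin m → ℂ} (hα : ∀ b c, α c b = - α b c)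
    (hβ : ∀ b c, β c b = - β b c) (hγ : ∀ b c, γ c b = - γ b c) (x y : Fin m × Bool) :
    XM α β γ y x = - XM α β γ x y := by
  unfold XM
  by_cases h : x.2 = y.2
  · rw [if_pos h, if_pos h.symm, h, hα x.1 y.1, hβ x.1 y.1]
    ring
  · rw [if_neg h, if_neg (Ne.symm h), hγ x.1 y.1]
    ring

/-- the combination of three skew forms -/
noncomputable def WW (P Q R : Mt m) : Zc (I2 m → ℂ) :=
  (1 / 2 : ℂ) • ff false false P + (Complex.I / 2) • ff false false Q +
    ((1 / 2 : ℂ) • ff true true P - (Complex.I / 2) • ff true true Q) +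
    Complex.I • ff false true R

theorem pol_XM {V : Fin m → Fin m × Bool → ℂ} {P Q R : Mt m} {α β γ : Fin m → Fin m → ℂ}
    (hP : Rep V P α) (hQ : Rep V Q β) (hR : Rep V R γ) :
    ExteriorAlgebra.map (pol V) (zval (ff false false (XM α β γ) +
      ff true true (cj (XM α β γ)))) = zval (WW P Q R) := by
  have hγ' : ∀ b c, cja γ c b = - cja γ b c := fun b c => by
    simp only [cja]; rw [hR.1 b c, map_neg]
  rw [map_add, map_add, pol_pp, pol_cc, ← map_add]
  congr 1
  have h2 : (starRingEnd ℂ) 2 = 2 := map_ofNat _ 2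
  have c1 : (fun b c => XM α β γ (b, false) (c, false)) =
      fun b c => (1 / 2 : ℂ) * α b c + (Complex.I / 2) * β b c := by
    funext b c; simp [XM]
  have c2 : (fun b c => XM α β γ (b, true) (c, true)) =
      fun b c => (1 / 2 : ℂ) * α b c + (-(Complex.I / 2)) * β b c := by
    funext b c; simp [XM]
  have c3 : (fun b c => XM α β γ (b, false) (c, true)) = fun b c => (Complex.I / 2) * γ b c := by
    funext b c; simp [XM]
  have c4 : (fun b c => XM α β γ (b, true) (c, false)) = fun b c => (Complex.I / 2) * γ b c := by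
    funext b c; simp [XM]
  have d1 : (fun b c => cj (XM α β γ) (b, false) (c, false)) =
      fun b c => (1 / 2 : ℂ) * cja α b c + (-(Complex.I / 2)) * cja β b c := by
    funext b c; simp [XM, cj, cja, h2]; ring
  have d2 : (fun b c => cj (XM α β γ) (b, true) (c, true)) =
      fun b c => (1 / 2 : ℂ) * cja α b c + (Complex.I / 2) * cja β b c := by
    funext b c; simp [XM, cj, cja, h2]; ring
  have d3 : (fun b c => cj (XM α β γ) (b, false) (c, true)) =
      fun b c => (-(Complex.I / 2)) * cja γ b c := by
    funext b c; simp [XM, cj, cja, h2]; ring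
  have d4 : (fun b c => cj (XM α β γ) (b, true) (c, false)) =
      fun b c => (-(Complex.I / 2)) * cja γ b c := by
    funext b c; simp [XM, cj, cja, h2]; ring
  rw [c1, c2, c3, c4, d1, d2, d3, d4]
  rw [SS_add _ _ V (fun b c => (1 / 2 : ℂ) * α b c), SS_add _ _ V (fun b c => (1 / 2 : ℂ) * α b c),
    SS_add _ _ _ (fun b c => (1 / 2 : ℂ) * cja α b c),
    SS_add _ _ _ (fun b c => (1 / 2 : ℂ) * cja α b c)]
  simp only [SS_smul]
  rw [SS_swap V hR.1, SS_swap _ hγ', WW, ff_rep hP, ff_rep hQ, ff_rep hP, ff_rep hQ, ff_rep hR]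
  module

end Pool.Agent.U661.HS
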