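import Pool.Agent.U661.HS.Pol

/-!
# Positivity by polarisation
-/

set_option autoImplicit false

namespace Pool.Agent.U661.HS

open Finset Pool.Agent.Y195.HF Pool.Agent.W666.GB Pool.Agent.W669.HD

variable {m : ℕ}

/-- invariance under one element of the torus -/
def Tor (T : Zc (I2 m → ℂ)) : Prop :=
  ExteriorAlgebra.map (act m 2 0 0 (1 / 2)) (zval T) = zval T

theorem tor_of_inv {T : Zc (I2 m → ℂ)} (h : Inv T) : Tor T := h 2 0 0 (1 / 2) (by norm_num)

theorem Tor.one : Tor (1 : Zc (I2 m → ℂ)) := by simp only [Tor, map_one]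

theorem Tor.mul {S T : Zc (I2 m → ℂ)} (hS : Tor S) (hT : Tor T) : Tor (S * T) := by
  unfold Tor at *
  rw [map_mul, map_mul, hS, hT]

theorem Tor.pow {S : Zc (I2 m → ℂ)} (hS : Tor S) (n : ℕ) : Tor (S ^ n) := by
  unfold Tor at *
  rw [map_pow, map_pow, hS]

theorem Tor.add {S T : Zc (I2 m → ℂ)} (hS : Tor S) (hT : Tor T) : Tor (S + T) := by
  unfold Tor at *
  rw [map_add, map_add, hS, hT]

theorem Tor.smul {S : Zc (I2 m → ℂ)} (hS : Tor S) (z : ℂ) : Tor (z • S) := by
  unfold Tor at *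
  rw [map_smul, map_smul, hS]

theorem weightT {C D : Mt m} (hC : ∀ i j, C j i = - C i j) (hD : ∀ i j, D j i = - D i j)
    {T : Zc (I2 m → ℂ)} (hT : Tor T) {k l : ℕ} (hkl : k ≠ l) :
    LF m (zval (ff false false C ^ k * ff true true D ^ l * T)) = 0 := by
  have h1 : (2 : ℂ) * (1 / 2) - 0 * 0 = 1 := by norm_num
  have h2 := LF_act (m := m) h1 (zval (ff false false C ^ k * ff true true D ^ l * T))
  have h3 : ExteriorAlgebra.map (act m 2 0 0 (1 / 2))
      (zval (ff false false C ^ k * ff true true D ^ l * T)) =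
      zval (((4 : ℂ) ^ k * (1 / 4) ^ l) • (ff false false C ^ k * ff true true D ^ l * T)) := by
    have hT' : ExteriorAlgebra.map (act m 2 0 0 (1 / 2)) (zval T) = zval T := hT
    simp only [map_mul, map_pow, map_pp _ _ _ _ hC, map_cc _ _ _ _ hD, hT']
    simp only [← map_pow, ← map_mul]
    congr 1
    have e1 : ((2 : ℂ) ^ 2 • ff false false C + (2 * 2 * 0 : ℂ) • ff false true C +
        (0 : ℂ) ^ 2 • ff true true C) = (4 : ℂ) • ff false false C := by
      norm_num
    have e2 : ((0 : ℂ) ^ 2 • ff false false D + (2 * 0 * (1 / 2) : ℂ) • ff false true D +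
        (1 / 2 : ℂ) ^ 2 • ff true true D) = (1 / 4 : ℂ) • ff true true D := by
      norm_num
    rw [e1, e2, smul_pow, smul_pow]
    simp only [Algebra.smul_def, map_mul]
    ring
  rw [h3, map_smul, map_smul, smul_eq_mul] at h2
  have h4 : (4 : ℂ) ^ k * (1 / 4) ^ l ≠ 1 := by
    intro h
    apply hkl
    have h5 : (4 : ℂ) ^ k = 4 ^ l := by
      have h6 : (4 : ℂ) ^ l ≠ 0 := pow_ne_zero _ (by norm_num)
      rw [one_div, inv_pow] at h
      field_simp at h
      exact h
    have h7 : (4 : ℕ) ^ k = 4 ^ l := by exact_mod_cast h5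
    exact Nat.pow_right_injective (le_refl 2 |>.trans (by norm_num)) h7
  have h5 : ((4 : ℂ) ^ k * (1 / 4) ^ l - 1) *
      LF m (zval (ff false false C ^ k * ff true true D ^ l * T)) = 0 := by
    rw [sub_mul, h2, one_mul, sub_self]
  exact (mul_eq_zero.mp h5).resolve_left (sub_ne_zero.mpr h4)

theorem planarT {C : Mt m} (hC : ∀ i j, C j i = - C i j) {T : Zc (I2 m → ℂ)} (hT : Tor T)
    {N n : ℕ} (hTc : T ∈ cone m n) (hN : N + n = m) :
    ∃ r : ℝ, 0 ≤ r ∧
      LF m (zval ((ff false false C + ff true true (cj C)) ^ (2 * N) * T)) = (r : ℂ) := by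
  have hD : ∀ i j, cj C j i = - cj C i j := fun i j => by
    simp only [cj]; rw [hC i j, map_neg]
  have h1 : (ff false false C + ff true true (cj C)) ^ (2 * N) * T =
      ∑ k ∈ Finset.range (2 * N + 1), ((2 * N).choose k : ℂ) •
        (ff false false C ^ k * ff true true (cj C) ^ (2 * N - k) * T) := by
    rw [add_pow, Finset.sum_mul]
    refine Finset.sum_congr rfl fun k _ => ?_
    simp only [Algebra.smul_def, map_natCast]
    ring
  have h2 : LF m (zval ((ff false false C + ff true true (cj C)) ^ (2 * N) * T)) =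
      ((2 * N).choose N : ℂ) *
        LF m (zval (ff false false C ^ N * ff true true (cj C) ^ (2 * N - N) * T)) := by
    rw [h1, map_sum, map_sum]
    simp only [map_smul, smul_eq_mul]
    rw [Finset.sum_eq_single N]
    · intro k hk hkN
      rw [Finset.mem_range] at hk
      rw [weightT hC hD hT (by omega), mul_zero]
    · intro h
      exact absurd (Finset.mem_range.mpr (by omega)) h
  have h3 : ff false false C ^ N * ff true true (cj C) ^ (2 * N - N) * T ∈ cone m m := by
    have h4 : 2 * N - N = N := by omega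
    rw [h4, ← mul_pow]
    have h5 := cone_gen' (m := m) (n := N) (fun _ => C)
    rw [Finset.prod_const, Finset.card_univ, Fintype.card_fin] at h5
    have h6 := cone_mul h5 hTc
    rwa [hN] at h6
  obtain ⟨r, hr, hr'⟩ := cone_LF h3
  refine ⟨(2 * N).choose N * r, by positivity, ?_⟩
  rw [h2, hr']
  push_cast
  ring

/-- the unit tensor -/
def uT : T4 m := fun i j k l => unitCurv i j k l

theorem eL_unit : eL (cx (uT : T4 m)) = (-2 : ℂ) • ff false true (idM : Mt m) ^ 2 := by
  have h1 : (cx (uT : T4 m) : C4 m) = fun i j k l => (idM : Mt m) i k * (idM : Mt m) j l +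
      (-1 : ℂ) * ((idM : Mt m) i l * (idM : Mt m) j k) := by
    funext i j k l
    simp only [cx, uT, unitCurv, idM]
    split_ifs <;> push_cast <;> ring
  rw [h1, eL_add (fun i j k l => (idM : Mt m) i k * (idM : Mt m) j l),
    eL_smul (-1) (fun i j k l => (idM : Mt m) i l * (idM : Mt m) j k), eL_cross, eL_cross']
  module

theorem unit_gm_one : gm (fun _ : Fin m => (uT : T4 m)) = 2 ^ m * (2 * m).factorial := by
  have h := unit_gm (m := m) 1
  have h1 : (fun i j k l => (1 : ℝ) * unitCurv i j k l : T4 m) = uT := by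
    funext i j k l
    simp only [uT, one_mul]
  rw [h1, one_pow, one_mul] at h
  exact h

theorem LF_g_ne : LF m (zval (ff false true (idM : Mt m) ^ (2 * m))) ≠ 0 := by
  intro h
  have h1 := gm_LR (uT : T4 m)
  rw [unit_gm_one, eL_unit, smul_pow, ← pow_mul, LR_apply, map_smul, map_smul, h, smul_zero,
    Complex.zero_re] at h1
  have h2 : (0 : ℝ) < 2 ^ m * (2 * m).factorial := by positivity
  exact absurd h1 h2.ne'

theorem LF_map_gen (f : (I2 m → ℂ) →ₗ[ℂ] (I2 m → ℂ)) (x : ExteriorAlgebra ℂ (I2 m → ℂ)) :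
    LF m (ExteriorAlgebra.map f x) = LinearMap.det f * LF m x := by
  rw [LF, LinearMap.smul_apply, LinearMap.smul_apply, topF_map, smul_eq_mul, smul_eq_mul]
  ring

theorem det_pol {V : Fin m → Fin m × Bool → ℂ} (hV : Uni V) : LinearMap.det (pol V) = 1 := by
  have h := LF_map_gen (pol V) (zval (ff false true (idM : Mt m) ^ (2 * m)))
  rw [map_pow, map_pow, pol_g hV, ← map_pow] at h
  have h1 := LF_g_ne (m := m)
  have h2 : (LinearMap.det (pol V) - 1) * LF m (zval (ff false true (idM : Mt m) ^ (2 * m))) = 0 := by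
    rw [sub_mul, ← h, one_mul, sub_self]
  exact sub_eq_zero.mp ((mul_eq_zero.mp h2).resolve_right h1)

/-- `T` is the image of a positive element under the polarisation map. -/
def Good (V : Fin m → Fin m × Bool → ℂ) (n : ℕ) (T : Zc (I2 m → ℂ)) : Prop :=
  ∃ T' : Zc (I2 m → ℂ), ExteriorAlgebra.map (pol V) (zval T') = zval T ∧ Tor T' ∧ T' ∈ cone m n

theorem Good.mul {V : Fin m → Fin m × Bool → ℂ} {n k : ℕ} {S T : Zc (I2 m → ℂ)}
    (hS : Good V n S) (hT : Good V k T) : Good V (n + k) (S * T) := by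
  obtain ⟨S', h1, h2, h3⟩ := hS
  obtain ⟨T', h4, h5, h6⟩ := hT
  exact ⟨S' * T', by rw [map_mul, map_mul, h1, h4, map_mul], h2.mul h5, cone_mul h3 h6⟩

theorem Good.pow {V : Fin m → Fin m × Bool → ℂ} {S : Zc (I2 m → ℂ)}
    (hS : Good V 1 S) (k : ℕ) : Good V k (S ^ k) := by
  obtain ⟨S', h1, h2, h3⟩ := hS
  exact ⟨S' ^ k, by rw [map_pow, map_pow, h1, map_pow], h2.pow k, cone_pow h3 k⟩

theorem Good.add {V : Fin m → Fin m × Bool → ℂ} {n : ℕ} {S T : Zc (I2 m → ℂ)}
    (hS : Good V n S) (hT : Good V n T) : Good V n (S + T) := by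
  obtain ⟨S', h1, h2, h3⟩ := hS
  obtain ⟨T', h4, h5, h6⟩ := hT
  exact ⟨S' + T', by rw [map_add, map_add, h1, h4, map_add], h2.add h5,
    (cone m n).add_mem h3 h6⟩

/-- Positivity for three forms. -/
theorem WW_pos {V : Fin m → Fin m × Bool → ℂ} (hV : Uni V) {P Q R : Mt m}
    {α β γ : Fin m → Fin m → ℂ} (hP : Rep V P α) (hQ : Rep V Q β) (hR : Rep V R γ)
    {N n : ℕ} {T : Zc (I2 m → ℂ)} (hT : Good V n T) (hN : N + n = m) :
    ∃ r : ℝ, 0 ≤ r ∧ LF m (zval (WW P Q R ^ (2 * N) * T)) = (r : ℂ) := by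
  obtain ⟨T', h1, h2, h3⟩ := hT
  obtain ⟨r, hr, hr'⟩ := planarT (XM_skew hP.1 hQ.1 hR.1) h2 h3 hN
  refine ⟨r, hr, ?_⟩
  have e := LF_map (det_pol hV) (zval ((ff false false (XM α β γ) +
    ff true true (cj (XM α β γ))) ^ (2 * N) * T'))
  rw [← hr', ← e]
  congr 1
  rw [map_mul, map_pow, map_mul, map_pow, map_mul, map_pow, pol_XM hP hQ hR, h1]

end Pool.Agent.U661.HS
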